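import Mathlib
import Pool.Agent.H76.GL.DefT
import Pool.Agent.H76.GS.PosK
import Pool.Agent.H76.GS.EvA

/-!
# CoreI: the averaged inequality at a combination of isolated zeros

PROOF: the first half of the proof of `evenI` (`GL/EvenI.lean`, up to `hE2`), without the hypothesis that `∑ k` is
even: keep the sign `sg S kk` (`posK` gives `D0 k - loss ≤ sg S kk * Re Dk a k t`; use `evA` with
`R k = sg S kk * (Dk a k t).re` and then `Finset.mul_sum`), and `x = 32 dep` instead of `16 dep` (as in `coreL`, where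
the loss term is `dep/(32 dep)² = (1/32)/(32 dep)`).  The constant `c` small: `(k0+1)/a + (2 C1+2)/a ≤ (1/8)/(32 dep)`
from `dep * log (3 Λ len) ≤ c a`, `k0 + 1 ≤ C4 log (3 Λ len)`.  About 170 lines.
-/

set_option autoImplicit false

open Complex

namespace Pool.Agent.H76.LP

open Pool.Agent.H76.CR Pool.Agent.H76.RP Pool.Agent.H76.GS Pool.Agent.H76.GL

private theorem ci_level {q : ℝ} (hq : 0 < q) (hq1 : q < 1) (k0 : ℕ) : ∃ K : ℕ, k0 ≤ K ∧ q ^ K ≤ 1 - q := by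
  obtain ⟨n, hn⟩ := exists_pow_lt_of_lt_one (by linarith : (0 : ℝ) < 1 - q) hq1
  refine ⟨max k0 n, le_max_left _ _, ?_⟩
  exact (pow_le_pow_of_le_one hq.le hq1.le (le_max_right k0 n)).trans hn.le

/-- a power of two above `X`, with a small exponent -/
private theorem ci_two {X : ℝ} (hX : 1 ≤ X) : ∃ k0 : ℕ, X ≤ 2 ^ k0 ∧ (k0 : ℝ) + 1 ≤ 2 * Real.log X + 2 := by
  have hl : 0 ≤ Real.log X := Real.log_nonneg hX
  refine ⟨⌈2 * Real.log X⌉₊, ?_, ?_⟩
  · have h1 : 2 * Real.log X ≤ (⌈2 * Real.log X⌉₊ : ℝ) := Nat.le_ceil _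
    have h2 := Real.log_two_gt_d9
    rw [← Real.log_le_log_iff (by linarith) (by positivity), Real.log_pow]
    nlinarith
  · have := Nat.ceil_lt_add_one (show 0 ≤ 2 * Real.log X by linarith)
    linarith

private theorem ci_sum {S : Finset ℂ} {kk : ℂ → ℤ} (hS : ∀ ρ ∈ S, riemannZeta ρ = 0) {ρ : ℂ} (hρ : ρ ∈ S) :
    0 ≤ |(kk ρ : ℝ)| * (1 - ρ.re) :=
  mul_nonneg (abs_nonneg _) (by linarith [re_lt_one (hS ρ hρ)])

private theorem ci_len {S : Finset ℂ} {kk : ℂ → ℤ} (h : 0 < dep S kk) : 1 ≤ len S kk := by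
  have h1 : len S kk ≠ 0 := by
    intro h0
    unfold dep at h
    rw [h0, zero_mul] at h
    exact lt_irrefl _ h
  unfold len at h1 ⊢
  obtain ⟨ρ, hρ, hk⟩ := Finset.exists_ne_zero_of_sum_ne_zero h1
  have h2 : (1 : ℝ) ≤ |(kk ρ : ℝ)| := by
    have h3 : kk ρ ≠ 0 := by
      intro h4
      rw [h4] at hk
      simp at hk
    have h4 : (1 : ℤ) ≤ |kk ρ| := Int.one_le_abs h3
    exact_mod_cast h4
  exact h2.trans (Finset.single_le_sum (f := fun ρ => |(kk ρ : ℝ)|) (fun _ _ => abs_nonneg _) hρ)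

private theorem ci_re {S : Finset ℂ} {kk : ℂ → ℤ} (hS : ∀ ρ ∈ S, riemannZeta ρ = 0) (h : 0 < dep S kk)
    {ρ : ℂ} (hρ : ρ ∈ S) (hk : kk ρ ≠ 0) : 1 - ρ.re ≤ dep S kk := by
  have h1 := ci_len h
  have h2 : (1 : ℝ) ≤ |(kk ρ : ℝ)| := by
    have h4 : (1 : ℤ) ≤ |kk ρ| := Int.one_le_abs hk
    exact_mod_cast h4
  have h3 : 0 ≤ 1 - ρ.re := by linarith [re_lt_one (hS ρ hρ)]
  have h4 : |(kk ρ : ℝ)| * (1 - ρ.re) ≤ ∑ ρ ∈ S, |(kk ρ : ℝ)| * (1 - ρ.re) :=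
    Finset.single_le_sum (f := fun ρ => |(kk ρ : ℝ)| * (1 - ρ.re)) (fun u hu => ci_sum hS hu) hρ
  have h5 : 1 * (1 - ρ.re) ≤ |(kk ρ : ℝ)| * (1 - ρ.re) := mul_le_mul_of_nonneg_right h2 h3
  have h6 : 0 ≤ ∑ ρ ∈ S, |(kk ρ : ℝ)| * (1 - ρ.re) := Finset.sum_nonneg fun u hu => ci_sum hS hu
  have h7 := mul_le_mul_of_nonneg_right h1 h6
  unfold dep
  linarith

theorem coreI : ∃ r1 c C4 : ℝ, 0 < r1 ∧ r1 ≤ 1 / 16 ∧ 0 < c ∧ c ≤ 1 ∧ 1 ≤ C4 ∧
    ∀ (a r Λ : ℝ) (S : Finset ℂ) (kk : ℂ → ℤ), 0 < a → a ≤ r1 → 3 * a ≤ r → r ≤ 1 →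
      (∀ ρ ∈ S, riemannZeta ρ = 0 ∧ 1 ≤ |ρ.im| ∧ zc r ρ.im ≤ 1 ∧ Gr a ρ.im Λ) →
      0 < dep S kk → dep S kk * Real.log (3 * Λ * len S kk) ≤ c * a →
      ∃ (q : ℝ) (k0 K : ℕ), 0 < q ∧ q < 1 ∧ (1 - q) * a = 32 * dep S kk ∧ k0 ≤ K ∧
        q ^ K ≤ 1 - q ∧ (k0 : ℝ) + 1 ≤ C4 * Real.log (3 * Λ * len S kk) ∧
        3 / 4 / (32 * dep S kk) ≤
          sg S kk * ∑ k ∈ Finset.Ico k0 K, (q * a) ^ k * (Dk a k (comb S kk)).re := by
  obtain ⟨r1, C1, hr1, hr1', hC1, -, hd2, hd3, -⟩ := defT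
  set C4 : ℝ := 2 * C1 + 6 with hC4
  set Q : ℝ := C4 + 2 * C1 + 2 with hQ
  have hQ6 : 6 ≤ Q := by linarith
  have hQ0 : 0 < Q := by linarith
  refine ⟨r1, 1 / (512 * Q), C4, hr1, hr1', by positivity, ?_, by linarith, ?_⟩
  · rw [div_le_one (by positivity)]
    linarith
  intro a r Λ S kk ha0 ha1 ha3 hr1'' hS hδ hδP
  set c : ℝ := 1 / (512 * Q) with hc
  have hc0 : 0 < c := by positivity
  have hcQ : 512 * Q * c = 1 := by
    rw [hc]
    field_simp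
  have hlen := ci_len hδ
  have hlen0 : 0 < len S kk := by linarith
  have hZ : ∀ ρ ∈ S, riemannZeta ρ = 0 := fun ρ hρ => (hS ρ hρ).1
  have hre : ∀ ρ ∈ S, kk ρ ≠ 0 → 1 - ρ.re ≤ dep S kk := fun ρ hρ hk => ci_re hZ hδ hρ hk
  have hne : S.Nonempty := by
    rw [Finset.nonempty_iff_ne_empty]
    rintro rfl
    unfold dep at hδ
    simp at hδ
  have hΛ : 1 ≤ Λ := by
    obtain ⟨ρ, hρ⟩ := hne
    exact (hS ρ hρ).2.2.2.1
  have hΛ0 : 0 < Λ := by linarith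
  set δ : ℝ := dep S kk with hδdef
  set P : ℝ := Real.log (3 * Λ * len S kk) with hP
  have hPe : P = Real.log 3 + Real.log Λ + Real.log (len S kk) := by
    rw [hP, Real.log_mul (by positivity) hlen0.ne', Real.log_mul (by norm_num) hΛ0.ne']
  have hlΛ : 0 ≤ Real.log Λ := Real.log_nonneg hΛ
  have hll : 0 ≤ Real.log (len S kk) := Real.log_nonneg hlen
  have hl3 : 1 ≤ Real.log 3 := by
    rw [Real.le_log_iff_exp_le (by norm_num)]
    have := Real.exp_one_lt_d9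
    linarith
  have hP1 : 1 ≤ P := by linarith
  have hX : 1 ≤ C1 * len S kk ^ 2 * Λ := by
    have h1 : 1 ≤ len S kk ^ 2 := one_le_pow₀ hlen
    have h2 : 1 ≤ C1 * len S kk ^ 2 := by nlinarith
    nlinarith
  obtain ⟨k0, hk1, hk3'⟩ := ci_two hX
  have hlX : Real.log (C1 * len S kk ^ 2 * Λ) = Real.log C1 + 2 * Real.log (len S kk) + Real.log Λ := by
    rw [Real.log_mul (by positivity) hΛ0.ne', Real.log_mul (by positivity) (by positivity), Real.log_pow]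
    norm_num
  have hlC1 : Real.log C1 ≤ C1 := by
    have := Real.log_le_sub_one_of_pos (show 0 < C1 by linarith)
    linarith
  have hk3 : (k0 : ℝ) + 1 ≤ C4 * P := by
    rw [hlX] at hk3'
    have h1 : (2 * C1 + 2) * 1 ≤ (2 * C1 + 2) * P := mul_le_mul_of_nonneg_left hP1 (by linarith)
    have h2 : C4 * P = (2 * C1 + 2) * P + 4 * P := by rw [hC4]; ring
    linarith
  set t : ℝ := comb S kk with ht
  set x : ℝ := 32 * δ with hx
  have hx0 : 0 < x := by positivity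
  have hδcr : δ ≤ c * a := by
    have : δ * 1 ≤ δ * P := mul_le_mul_of_nonneg_left hP1 hδ.le
    linarith
  have hcra : 512 * Q * (c * a) = a := by
    rw [← mul_assoc, hcQ, one_mul]
  -- `x` is small compared with `a`
  have hxa : 16 * Q * x ≤ a := by
    have := mul_le_mul_of_nonneg_left hδcr (by positivity : 0 ≤ 512 * Q)
    rw [hcra] at this
    rw [hx]
    linarith
  have hxa2 : x ≤ a / 2 := by
    have := mul_le_mul_of_nonneg_right hQ6 hx0.le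
    linarith
  set q : ℝ := 1 - x / a with hq
  have hxa' : x / a ≤ 1 / 2 := by
    rw [div_le_iff₀ ha0]
    linarith
  have hxa0 : 0 < x / a := div_pos hx0 ha0
  have hq0 : 0 < q := by linarith
  have hq1 : q < 1 := by linarith
  have hqa : (1 - q) * a = x := by
    rw [hq]
    field_simp
    ring
  obtain ⟨K, hkK, hqK⟩ := ci_level hq0 hq1 k0
  have hδa : δ < a := by linarith [hxa2]
  have hM0 : 0 ≤ len S kk ^ 2 * (C1 * Λ) := by
    have := sq_nonneg (len S kk)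
    positivity
  have hM2 : len S kk ^ 2 * (C1 * Λ) ≤ 2 ^ k0 := by
    calc _ = C1 * len S kk ^ 2 * Λ := by ring
      _ ≤ _ := hk1
  have hE : 1 / ((1 - q) * a) - (k0 + 1) / a - (2 * C1 + 2) / a - δ / ((1 - q) * a) ^ 2 ≤
      ∑ k ∈ Finset.Ico k0 K, (q * a) ^ k * (sg S kk * (Dk a k t).re) := by
    refine evA (D0 := fun k => ∑' n : ℕ, dco a k n) (L := fun k => loss (dco a k) S kk) ha0 hq0 hq1 hkK hqK
      (by linarith) hM0 hM2 hδ.le (fun k => hd2 a k ha0 ha1) (fun k => ?_) (fun k => ?_)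
    · have h1 := hd3 a r Λ k S kk ha0 ha1 ha3 hr1'' (fun ρ hρ => ⟨(hS ρ hρ).1, (hS ρ hρ).2.1,
        (hS ρ hρ).2.2.1, fun h0 => (hre ρ hρ h0).trans_lt hδa, (hS ρ hρ).2.2.2⟩)
      calc _ ≤ _ := h1
        _ = _ := by ring
    · exact posK (dco a k) (dco_nonneg a k) (by simp [dco]) (summable_dco ha0 k) S kk
  have hsum : ∑ k ∈ Finset.Ico k0 K, (q * a) ^ k * (sg S kk * (Dk a k t).re) =
      sg S kk * ∑ k ∈ Finset.Ico k0 K, (q * a) ^ k * (Dk a k t).re := by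
    rw [Finset.mul_sum]
    exact Finset.sum_congr rfl fun k _ => by ring
  rw [hqa, hsum] at hE
  refine ⟨q, k0, K, hq0, hq1, hqa, hkK, hqK, hk3, ?_⟩
  have hinv : 0 < 1 / x := by positivity
  have hia : (2 * C1 + 2) / a ≤ 1 / 16 * (1 / x) := by
    rw [← mul_div_assoc, mul_one, div_le_div_iff₀ ha0 hx0]
    have := mul_le_mul_of_nonneg_right (show 2 * C1 + 2 ≤ Q by linarith) hx0.le
    linarith
  have hk4 : ((k0 : ℝ) + 1) / a ≤ 1 / 16 * (1 / x) := by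
    rw [← mul_div_assoc, mul_one, div_le_div_iff₀ ha0 hx0]
    have h1 : ((k0 : ℝ) + 1) * x ≤ C4 * P * x := mul_le_mul_of_nonneg_right hk3 hx0.le
    have h2 : C4 * P * x = 32 * C4 * (δ * P) := by
      rw [hx]
      ring
    have h3 : 32 * C4 * (δ * P) ≤ 32 * C4 * (c * a) := mul_le_mul_of_nonneg_left hδP (by linarith)
    have h4 : 32 * C4 * (c * a) ≤ 32 * Q * (c * a) :=
      mul_le_mul_of_nonneg_right (by linarith) (by positivity)
    linarith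
  have hδx : δ / x ^ 2 = 1 / 32 * (1 / x) := by
    rw [hx]
    field_simp
  rw [hδx] at hE
  have h34 : 3 / 4 / x = 3 / 4 * (1 / x) := by ring
  rw [h34]
  linarith

end Pool.Agent.H76.LP
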