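import Mathlib
import Pool.Agent.H76.LF.MainF

/-!
# Own: zeros near a point where `∓ζ'/ζ` is large

PROOF: `L = log (2 + E) ≥ 1`, `b = 32 d`; `b ≤ r/4` for `c` small; `s = pt b t`, `‖s - (1 + it)‖ = b`, `Re s = 1 + b`.
`mainF`: `‖ζ'/ζ(s) - LZ r t s‖ ≤ C1 (1 + n) L/r`, `n = zc r t`.  `0 ≤ Re LZ` (private lemma `lu_LZ_nonneg` of
`LF/LawU.lean`, copy), so in (1): `5/(8b) ≤ -Re ζ'/ζ ≤ C1 (1+n) L/r`, so `1 + n ≥ 5 r/(256 C1 d L) ≥ 2` and
`n ≥ (1 + n)/2`.  (2): if `n = 0` then `disc r t` is empty (`zc_sum`, `ord_pos`, or directly as in `LF`), `LZ = 0`,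
`5/(8b) ≤ Re ζ'/ζ ≤ C1 L/r`, contradiction for `c` small.  About 110 lines.
-/

set_option autoImplicit false

open Complex

namespace Pool.Agent.H76.LP

open Pool.Agent.H76.CR Pool.Agent.H76.RP Pool.Agent.H76.GL Pool.Agent.H76.LF

private theorem ow_pt_re (b t : ℝ) : (pt b t).re = 1 + b := by simp [pt]

private theorem ow_term {b t : ℝ} (hb : 0 < b) {u : ℂ} (hu : riemannZeta u = 0) (m : ℕ) :
    0 ≤ ((m : ℂ) / (pt b t - u)).re := by
  rw [Complex.div_re, Complex.natCast_re, Complex.natCast_im, zero_mul, zero_div, add_zero,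
    Complex.sub_re, ow_pt_re]
  have h1 := re_lt_one hu
  refine div_nonneg (mul_nonneg (Nat.cast_nonneg m) (by linarith)) (Complex.normSq_nonneg _)

private theorem ow_LZ_nonneg {b r t : ℝ} (hb : 0 < b) (hr : r ≤ 1) : 0 ≤ (LZ r t (pt b t)).re := by
  rw [LZ_sum hr, Complex.re_sum]
  refine Finset.sum_nonneg fun u hu => ?_
  rw [Set.Finite.mem_toFinset] at hu
  exact ow_term hb hu.1 _

private theorem ow_LZ_zero {r t : ℝ} (hr : r ≤ 1) (h : zc r t = 0) (s : ℂ) : LZ r t s = 0 := by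
  rw [LZ_sum hr]
  refine Finset.sum_eq_zero fun u hu => ?_
  exfalso
  have h1 := zc_sum hr t
  rw [h] at h1
  have h2 := (Finset.sum_eq_zero_iff.1 h1.symm) u hu
  rw [Set.Finite.mem_toFinset] at hu
  have h3 := ord_pos hu.1
  omega

private theorem ow_L {r E : ℝ} (hr : 0 < r) (hr1 : r ≤ 1) (hE : 1 + Real.log (1 / r) ≤ E) :
    1 ≤ Real.log (2 + E) := by
  have hlr : 0 ≤ Real.log (1 / r) := Real.log_nonneg (by rw [le_div_iff₀ hr]; linarith)
  rw [Real.le_log_iff_exp_le (by linarith)]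
  have := Real.exp_one_lt_d9
  linarith

private theorem ow_dist (b t : ℝ) (hb : 0 ≤ b) : ‖pt b t - (1 + t * I)‖ = b := by
  have h1 : pt b t - (1 + t * I) = ((b : ℝ) : ℂ) := by
    unfold pt
    push_cast
    ring
  rw [h1, Complex.norm_real, Real.norm_eq_abs, abs_of_nonneg hb]

theorem own : ∃ c : ℝ, 0 < c ∧ c ≤ 1 ∧ ∀ r E d t : ℝ, 0 < r → r ≤ 1 →
    1 + Real.log (1 / r) ≤ E → Tame r E t → 0 < d → d * Real.log (2 + E) ≤ c * r →
    (5 / 8 / (32 * d) ≤ -(deriv riemannZeta (pt (32 * d) t) / riemannZeta (pt (32 * d) t)).re →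
      c * r / (d * Real.log (2 + E)) ≤ zc r t) ∧
    (5 / 8 / (32 * d) ≤ (deriv riemannZeta (pt (32 * d) t) / riemannZeta (pt (32 * d) t)).re →
      1 ≤ zc r t) := by
  obtain ⟨c0, C, hc0, hc01, hC, hmain⟩ := mainF
  -- 5/(256 d) vs C (1+n) L / r
  refine ⟨1 / (1024 * C), by positivity, ?_, ?_⟩
  · rw [div_le_one (by positivity)]
    linarith
  intro r E d t hr hr1 hE hT hd hdL
  set L : ℝ := Real.log (2 + E) with hLdef
  have hL : 1 ≤ L := ow_L hr hr1 hE
  have hdLr : 1024 * C * (d * L) ≤ r := by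
    have h1 := mul_le_mul_of_nonneg_left hdL (show (0 : ℝ) ≤ 1024 * C by positivity)
    have h2 : 1024 * C * (1 / (1024 * C) * r) = r := by
      field_simp
    linarith
  have hdL' : 1024 * (d * L) ≤ r := by
    have h0 : 0 ≤ d * L := by positivity
    nlinarith
  have hdr : 128 * d ≤ r := by nlinarith
  have hb : 0 < 32 * d := by linarith
  have hne : riemannZeta (pt (32 * d) t) ≠ 0 := by
    intro h0
    have h1 := re_lt_one h0
    rw [ow_pt_re] at h1
    linarith
  have hm := hmain r E t hr hr1 hE hT (pt (32 * d) t) (by rw [ow_dist _ _ hb.le]; linarith)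
    (by
      rw [ow_pt_re]
      have : 0 ≤ c0 * r / Real.log (2 + E) := by
        rw [← hLdef]
        positivity
      linarith) hne
  rw [← hLdef] at hm
  have hre := (Complex.abs_re_le_norm _).trans hm
  rw [Complex.sub_re] at hre
  have hre2 := abs_le.1 hre
  have hLZ := ow_LZ_nonneg (t := t) hb hr1
  have h58 : (5 : ℝ) / 8 / (32 * d) = 5 / (256 * d) := by
    field_simp
    norm_num
  constructor
  · intro h
    rw [h58] at h
    -- 5/(256 d) ≤ C (1+n) L / r
    have h1 : 5 / (256 * d) ≤ C * (1 + (zc r t : ℝ)) * L / r := by linarith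
    rw [div_le_div_iff₀ (by positivity) hr] at h1
    rw [div_le_iff₀ (by positivity)]
    -- 5 r ≤ C (1+n) L 256 d ; and 1024 C d L ≤ r
    have h2 : 1 / (1024 * C) * r ≤ (zc r t : ℝ) * (d * L) := by
      have h3 : 5 * r ≤ 256 * (C * (d * L)) + 256 * C * ((zc r t : ℝ) * (d * L)) := by
        nlinarith
      have h4 : 4 * r ≤ 256 * C * ((zc r t : ℝ) * (d * L)) := by nlinarith
      have h5 : 1 / (1024 * C) * r = r / (1024 * C) := by ring
      rw [h5, div_le_iff₀ (by positivity)]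
      have h6 : 0 ≤ C * ((zc r t : ℝ) * (d * L)) := by positivity
      nlinarith
    exact h2
  · intro h
    by_contra hz
    have hz0 : zc r t = 0 := by omega
    rw [h58] at h
    rw [ow_LZ_zero hr1 hz0, Complex.zero_re, hz0, Nat.cast_zero, add_zero, mul_one, sub_zero] at hre2
    have h1 : 5 / (256 * d) ≤ C * L / r := by linarith
    rw [div_le_div_iff₀ (by positivity) hr] at h1
    nlinarith

end Pool.Agent.H76.LP
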