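import Mathlib
import Pool.Agent.H76.LF.Tay
import Pool.Agent.H76.LF.Low

/-!
# NVc: `ζ'/ζ` in a zero-free region, local form

PROOF: `p = pt a t`, `tay` gives `S`, `H`, `‖H^(k)(p)/k!‖ ≤ C1 Λ/(2a)^(k+1)`; `H` is the sum of its Taylor series on
the ball of radius `2a` (`Complex.hasSum_taylorSeries_on_ball`), so for `‖s - p‖ ≤ a`: `‖H s‖ ≤ ∑ C1 Λ/(2a)^(k+1) a^k
= C1 Λ/a`.  Let `s = pt b t`, `s0 = pt δ t` (`0 < b ≤ δ ≤ a`): both at distance `< a` from `p`, and not zeros (`Re > 1`).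
For `u ∈ S`, `m = ord u`: `Re (s0 - u) = δ + (1 - Re u) ≥ δ`, `‖s - u‖ ≥ 1 - Re u ≥ δ`, `‖s0 - u‖ ≤ ‖s - u‖ + δ ≤ 2 ‖s - u‖`,
`‖m/(s-u) - m/(s0-u)‖ = m (δ - b)/(‖s-u‖ ‖s0-u‖) ≤ 2 m δ/‖s0-u‖² ≤ 2 Re (m/(s0-u))`.  So
`‖∑ m/(s-u) - ∑ m/(s0-u)‖ ≤ 2 Re ∑ m/(s0-u) = 2 Re (ζ'/ζ(s0) - H s0) ≤ 2 (‖ζ'/ζ(s0)‖ + C1 Λ/a)` and
`‖ζ'/ζ(s)‖ ≤ ‖ζ'/ζ(s0)‖ + 2 C1 Λ/a + 2 (‖ζ'/ζ(s0)‖ + C1 Λ/a)`, `‖ζ'/ζ(s0)‖ ≤ 1/δ + C2` (`lowA`), `C2 ≤ C2/δ`.
About 170 lines.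
-/

set_option autoImplicit false

open Complex

namespace Pool.Agent.H76.LP

open Pool.Agent.H76.CR Pool.Agent.H76.RP Pool.Agent.H76.GL Pool.Agent.H76.LF

private theorem nvc_tay {H : ℂ → ℂ} {p s : ℂ} {a B : ℝ} (ha : 0 < a)
    (hH : DifferentiableOn ℂ H (Metric.ball p (2 * a)))
    (h2 : ∀ k : ℕ, ‖iteratedDeriv k H p / (k.factorial : ℂ)‖ ≤ B / (2 * a) ^ (k + 1))
    (hB : 0 ≤ B) (hs : ‖s - p‖ ≤ a) : ‖H s‖ ≤ B / a := by
  have hball : s ∈ Metric.ball p (2 * a) := by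
    rw [Metric.mem_ball, dist_eq_norm]
    linarith
  have hsum := Complex.hasSum_taylorSeries_on_ball hH hball
  rw [← hsum.tsum_eq]
  refine tsum_of_norm_bounded (hasSum_geometric_two' (B / a)) fun k => ?_
  have hterm : ‖((k.factorial : ℂ))⁻¹ • (s - p) ^ k • iteratedDeriv k H p‖ =
      ‖iteratedDeriv k H p / (k.factorial : ℂ)‖ * ‖s - p‖ ^ k := by
    rw [smul_eq_mul, smul_eq_mul, norm_mul, norm_mul, norm_pow, norm_div, norm_inv]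
    ring
  rw [hterm]
  calc ‖iteratedDeriv k H p / (k.factorial : ℂ)‖ * ‖s - p‖ ^ k
      ≤ (B / (2 * a) ^ (k + 1)) * a ^ k := by
        refine mul_le_mul (h2 k) (pow_le_pow_left₀ (norm_nonneg _) hs k) (by positivity) ?_
        positivity
    _ = B / a / 2 / 2 ^ k := by
        rw [pow_succ, mul_pow]
        field_simp

private theorem nvc_term {s s0 u : ℂ} {δ : ℝ} (hδ : 0 < δ) (m : ℕ) (h1 : δ ≤ ‖s - u‖)
    (h2 : δ ≤ (s0 - u).re) (h3 : ‖s0 - s‖ ≤ δ) :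
    ‖(m : ℂ) / (s - u) - (m : ℂ) / (s0 - u)‖ ≤ 2 * ((m : ℂ) / (s0 - u)).re := by
  have hp' : 0 < ‖s - u‖ := by linarith
  have h4 : δ ≤ ‖s0 - u‖ := h2.trans (re_le_norm _)
  have hp : 0 < ‖s0 - u‖ := by linarith
  have hsu : s - u ≠ 0 := norm_pos_iff.1 hp'
  have hs0u : s0 - u ≠ 0 := norm_pos_iff.1 hp
  have h5 : ‖s0 - u‖ ≤ 2 * ‖s - u‖ := by
    have h6 : s0 - u = (s0 - s) + (s - u) := by ring
    calc ‖s0 - u‖ ≤ ‖s0 - s‖ + ‖s - u‖ := by rw [h6]; exact norm_add_le _ _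
      _ ≤ 2 * ‖s - u‖ := by linarith
  have h6 : (m : ℂ) / (s - u) - (m : ℂ) / (s0 - u) = m * (s0 - s) / ((s - u) * (s0 - u)) := by
    rw [div_sub_div _ _ hsu hs0u]
    congr 1
    ring
  have h7 : ((m : ℂ) / (s0 - u)).re = m * (s0 - u).re / ‖s0 - u‖ ^ 2 := by
    rw [div_re, natCast_re, natCast_im, normSq_eq_norm_sq]
    ring
  rw [h6, norm_div, norm_mul, norm_mul, Complex.norm_natCast, h7, div_le_iff₀ (by positivity)]
  have h8 : 2 * ((m : ℝ) * (s0 - u).re / ‖s0 - u‖ ^ 2) * (‖s - u‖ * ‖s0 - u‖) =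
      2 * m * (s0 - u).re * ‖s - u‖ / ‖s0 - u‖ := by
    field_simp
  rw [h8, le_div_iff₀ hp]
  have h9 : ‖s0 - s‖ ≤ (s0 - u).re := h3.trans h2
  have h10 : 0 ≤ (s0 - u).re := hδ.le.trans h2
  calc (m : ℝ) * ‖s0 - s‖ * ‖s0 - u‖ ≤ (m : ℝ) * (s0 - u).re * (2 * ‖s - u‖) := by gcongr
    _ = 2 * m * (s0 - u).re * ‖s - u‖ := by ring

theorem nvc : ∃ C : ℝ, 1 ≤ C ∧ ∀ a t Λ δ b : ℝ, 0 < a → a ≤ 1 / 6 → 2 * a ≤ |t| → Gr a t Λ →
    0 < b → b ≤ δ → δ ≤ a →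
    (∀ u : ℂ, riemannZeta u = 0 → ‖pt a t - u‖ < 2 * a → δ ≤ 1 - u.re) →
    ‖deriv riemannZeta (pt b t) / riemannZeta (pt b t)‖ ≤ C * (Λ / a + 1 / δ) := by
  obtain ⟨C1, hC1, htay⟩ := tay
  obtain ⟨C2, hC2, hlow⟩ := lowA
  refine ⟨4 * C1 + 3 * (1 + C2), by linarith, ?_⟩
  intro a t Λ δ b ha0 ha hta hG hb hbδ hδa hzf
  have hδ : 0 < δ := hb.trans_le hbδ
  have hΛ : 1 ≤ Λ := hG.1
  obtain ⟨S, H, hS, hH, hform, hbd, -⟩ := htay a t Λ ha0 ha hta hG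
  have hpt : ∀ x y : ℝ, pt x t - pt y t = ((x - y : ℝ) : ℂ) := by
    intro x y
    simp only [pt]
    push_cast
    ring
  have hre : ∀ x : ℝ, (pt x t).re = 1 + x := by
    intro x
    simp [pt]
  have hn : ∀ x y : ℝ, ‖pt x t - pt y t‖ = |x - y| := by
    intro x y
    rw [hpt, Complex.norm_real, Real.norm_eq_abs]
  have hB : 0 ≤ C1 * Λ := by positivity
  have hHb : ∀ x : ℝ, 0 < x → x ≤ a → ‖H (pt x t)‖ ≤ C1 * Λ / a := by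
    intro x hx hxa
    refine nvc_tay ha0 hH hbd hB ?_
    rw [hn, abs_le]
    constructor <;> linarith
  have hfx : ∀ x : ℝ, 0 < x → x ≤ a → deriv riemannZeta (pt x t) / riemannZeta (pt x t) =
      ∑ u ∈ S, (analyticOrderNatAt riemannZeta u : ℂ) / (pt x t - u) + H (pt x t) := by
    intro x hx hxa
    refine hform _ ?_ ?_
    · rw [Metric.mem_ball, dist_eq_norm, hn, abs_lt]
      constructor <;> linarith
    · exact riemannZeta_ne_zero_of_one_lt_re (by rw [hre]; linarith)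
  have hs := hfx b hb (hbδ.trans hδa)
  have hs0 := hfx δ hδ hδa
  have hsum : ‖∑ u ∈ S, (analyticOrderNatAt riemannZeta u : ℂ) / (pt b t - u) -
      ∑ u ∈ S, (analyticOrderNatAt riemannZeta u : ℂ) / (pt δ t - u)‖ ≤
      2 * (∑ u ∈ S, (analyticOrderNatAt riemannZeta u : ℂ) / (pt δ t - u)).re := by
    rw [← Finset.sum_sub_distrib, Complex.re_sum, Finset.mul_sum]
    refine (norm_sum_le _ _).trans (Finset.sum_le_sum fun u hu => ?_)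
    have hu' := (hS u).1 hu
    have hur := hzf u hu'.1 hu'.2
    refine nvc_term hδ _ ?_ ?_ ?_
    · refine le_trans ?_ (re_le_norm _)
      rw [sub_re, hre]
      linarith
    · rw [sub_re, hre]
      linarith
    · rw [hn, abs_le]
      constructor <;> linarith
  have hl := (hlow δ hδ (by linarith)).1 t
  have hl2 : ‖deriv riemannZeta (pt δ t) / riemannZeta (pt δ t)‖ ≤ (1 + C2) / δ := by
    refine hl.trans ?_
    rw [add_div]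
    have h1 : C2 ≤ C2 / δ := by
      rw [le_div_iff₀ hδ]
      nlinarith
    linarith
  set A : ℂ := ∑ u ∈ S, (analyticOrderNatAt riemannZeta u : ℂ) / (pt δ t - u) with hA
  set A' : ℂ := ∑ u ∈ S, (analyticOrderNatAt riemannZeta u : ℂ) / (pt b t - u) with hA'
  set Z0 : ℂ := deriv riemannZeta (pt δ t) / riemannZeta (pt δ t) with hZ0
  have e1 : A.re ≤ ‖Z0‖ + C1 * Λ / a := by
    have h1 : A = Z0 - H (pt δ t) := by rw [hs0]; ring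
    calc A.re ≤ ‖A‖ := re_le_norm _
      _ ≤ ‖Z0‖ + ‖H (pt δ t)‖ := by rw [h1]; exact norm_sub_le _ _
      _ ≤ ‖Z0‖ + C1 * Λ / a := by linarith [hHb δ hδ hδa]
  have e2 : A' + H (pt b t) = (A' - A) + Z0 + (H (pt b t) - H (pt δ t)) := by
    rw [hs0]; ring
  have e3 : ‖H (pt b t) - H (pt δ t)‖ ≤ C1 * Λ / a + C1 * Λ / a :=
    (norm_sub_le _ _).trans (add_le_add (hHb b hb (hbδ.trans hδa)) (hHb δ hδ hδa))
  have e4 : ‖A' + H (pt b t)‖ ≤ ‖A' - A‖ + ‖Z0‖ + ‖H (pt b t) - H (pt δ t)‖ := by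
    rw [e2]
    exact (norm_add_le _ _).trans (add_le_add (norm_add_le _ _) le_rfl)
  rw [hs]
  have e5 : (4 * C1 + 3 * (1 + C2)) * (Λ / a + 1 / δ) =
      4 * (C1 * Λ / a) + 3 * ((1 + C2) / δ) + (4 * C1 / δ + 3 * (1 + C2) * Λ / a) := by
    ring
  have e6 : 0 ≤ 4 * C1 / δ + 3 * (1 + C2) * Λ / a := by positivity
  rw [e5]
  linarith

end Pool.Agent.H76.LP
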