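import Mathlib
import Pool.Agent.H76.LP.NVc
import Pool.Agent.H76.GL.TameR
import Pool.Agent.H76.GL.GrT
import Pool.Agent.H52.ZR.Low

/-!
# NVa: `ζ'/ζ` to the right of the line `Re s = 1`, at large heights

PROOF: `T = |t|` large, `l = log T`, `m = loglog T ≥ 1`, `a = (m/l)^(2/3)/16`, `r = 4a ≤ 1/4`: `r^(3/2) l ≤ m`,
`log (1/r) ≤ C + m`; `tameR` (with `T`): `Tame r E t`, `E = C1 (r^(3/2) l + m + log (1/r)) ≤ C m`, `1 ≤ E`;
`grT`: `Gr a t Λ`, `Λ = C (E + log (1/a)) ≤ C' m`.  So `Λ/a ≤ 16 C' m (l/m)^(2/3) = 16 C' l^(2/3) m^(1/3) ≤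
16 C' vklam T`.  `cv` from `vk_all`: a zero `u` with `‖pt a t - u‖ < 2a ≤ 1/8` has `Re u > 0`, `|Im u| ≤ T + 1`, so
`1 - Re u ≥ cv/vklam (T + 1) ≥ cv/(2 vklam T)` (`vklam_mono`, `vklam_succ`).  `δ = min (cv/(2 vklam T)) a`,
`1/δ ≤ 2 vklam T/cv + 1/a ≤ C vklam T` (`1/a ≤ 16 l^(2/3) m^(1/3)` as `m ≥ 1`).  If `b ≤ δ`: `nvc`.  If `b ≥ δ`:
`lowA`: `≤ 1/b + C ≤ 1/δ + C` and `vklam ≥ 1`.  About 200 lines.
-/

set_option autoImplicit false

open Complex

namespace Pool.Agent.H76.LP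

open Pool.Agent.H76.CR Pool.Agent.H76.RP Pool.Agent.H76.GL Pool.Agent.H76.LF Pool.Agent.H52.ZR

theorem nva : ∃ T0 C : ℝ, 1 ≤ T0 ∧ 1 ≤ C ∧ ∀ b t : ℝ, 0 < b → b ≤ 1 → T0 ≤ |t| →
    ‖deriv riemannZeta (pt b t) / riemannZeta (pt b t)‖ ≤ C * vklam |t| := by
  obtain ⟨C1, hC1, hta⟩ := tameR
  obtain ⟨C2, hC2, hgr⟩ := grT
  obtain ⟨C3, hC3, hlow⟩ := lowA
  obtain ⟨C4, hC4, hnv⟩ := nvc
  obtain ⟨c, hc, hvk⟩ := vk_all
  have hee : 0 < Real.exp (Real.exp 1) := Real.exp_pos _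
  refine ⟨C1 + Real.exp (Real.exp 1), C4 * (160 * (C1 * C2) + (2 / c + 16)) + (2 / c + 16) + C3,
    by linarith, ?_, fun b t hb hb1 htT => ?_⟩
  · have h1 : 0 < 2 / c := by positivity
    have h2 : 0 < C4 * (160 * (C1 * C2) + (2 / c + 16)) := by positivity
    linarith
  set T : ℝ := |t| with hT
  have hT1 : C1 ≤ T := by linarith
  have hTe : Real.exp (Real.exp 1) ≤ T := by linarith
  have hT0 : 0 < T := by linarith
  set l : ℝ := Real.log T with hl
  have hle : Real.exp 1 ≤ l := (Real.le_log_iff_exp_le hT0).2 hTe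
  have hl0 : 0 < l := lt_of_lt_of_le (Real.exp_pos _) hle
  set m : ℝ := Real.log l with hm
  have hm1 : 1 ≤ m := (Real.le_log_iff_exp_le hl0).2 hle
  have hm0 : 0 < m := by linarith
  have hml : m ≤ l := (Real.log_le_sub_one_of_pos hl0).trans (by linarith)
  set u : ℝ := m / l with hu
  have hu0 : 0 < u := div_pos hm0 hl0
  have hu1 : u ≤ 1 := (div_le_one hl0).2 hml
  set w : ℝ := u ^ (2 / 3 : ℝ) with hw
  have hw0 : 0 < w := Real.rpow_pos_of_pos hu0 _
  have hw1 : w ≤ 1 := Real.rpow_le_one hu0.le hu1 (by norm_num)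
  have hlogw : Real.log (1 / w) ≤ m := by
    rw [Real.log_div one_ne_zero hw0.ne', Real.log_one, hw, Real.log_rpow hu0, hu,
      Real.log_div hm0.ne' hl0.ne', ← hm]
    have h1 : 0 ≤ Real.log m := Real.log_nonneg hm1
    linarith
  set a : ℝ := w / 16 with ha
  have ha0 : 0 < a := by positivity
  have ha16 : a ≤ 1 / 16 := by rw [ha]; linarith
  have hloga : Real.log (1 / a) ≤ 4 * m := by
    have h1 : 1 / a = 16 * (1 / w) := by rw [ha]; field_simp
    rw [h1, Real.log_mul (by norm_num) (by positivity)]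
    have h2 : Real.log 16 ≤ 3 := by
      have h3 : Real.log (16 : ℝ) = 4 * Real.log 2 := by
        rw [show (16 : ℝ) = 2 ^ 4 by norm_num, Real.log_pow]
        norm_num
      rw [h3]
      linarith [Real.log_two_lt_d9]
    linarith
  have hlogr : Real.log (1 / (4 * a)) ≤ 4 * m := by
    refine le_trans (Real.log_le_log (by positivity) ?_) hloga
    exact one_div_le_one_div_of_le ha0 (by linarith)
  have hr32 : (4 * a) ^ (3 / 2 : ℝ) * l = m / 8 := by
    have h1 : 4 * a = w / 4 := by rw [ha]; ring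
    have h2 : w ^ (3 / 2 : ℝ) = u := by
      rw [hw, ← Real.rpow_mul hu0.le]
      norm_num
    have h3 : (4 : ℝ) ^ (3 / 2 : ℝ) = 8 := by
      rw [show (4 : ℝ) = 2 ^ (2 : ℝ) by norm_num, ← Real.rpow_mul (by norm_num)]
      norm_num
    rw [h1, Real.div_rpow hw0.le (by norm_num), h2, h3, hu]
    field_simp
  have hV0 : 1 ≤ vklam T := vklam_ge hT0.le
  set V : ℝ := vklam T with hV
  set K : ℝ := l ^ (2 / 3 : ℝ) * m ^ (1 / 3 : ℝ) with hK
  have hKV : K ≤ V := by
    rw [hK, hV]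
    unfold vklam
    have h1 : l ≤ Real.log (T + 3) := Real.log_le_log hT0 (by linarith)
    have h2 : m ≤ 1 + Real.log (Real.log (T + 3)) := by
      have := Real.log_le_log hl0 h1
      linarith
    have h3 : 0 ≤ Real.log (T + 3) := by linarith
    gcongr
  have hla : 1 / a ≤ 16 * K := by
    have h1 : 1 / a = 16 * (l ^ (2 / 3 : ℝ) / m ^ (2 / 3 : ℝ)) := by
      rw [ha, hw, hu, Real.div_rpow hm0.le hl0.le]
      have h2 : 0 < m ^ (2 / 3 : ℝ) := Real.rpow_pos_of_pos hm0 _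
      have h3 : 0 < l ^ (2 / 3 : ℝ) := Real.rpow_pos_of_pos hl0 _
      field_simp
    rw [h1, hK]
    refine mul_le_mul_of_nonneg_left ?_ (by norm_num)
    have h2 : 1 ≤ m ^ (2 / 3 : ℝ) := Real.one_le_rpow hm1 (by norm_num)
    have h3 : 1 ≤ m ^ (1 / 3 : ℝ) := Real.one_le_rpow hm1 (by norm_num)
    have h4 : 0 ≤ l ^ (2 / 3 : ℝ) := Real.rpow_nonneg hl0.le _
    exact (div_le_self h4 h2).trans (le_mul_of_one_le_right h4 h3)
  have hma : m / a = 16 * K := by
    have h2 : 0 < m ^ (2 / 3 : ℝ) := Real.rpow_pos_of_pos hm0 _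
    have h3 : 0 < l ^ (2 / 3 : ℝ) := Real.rpow_pos_of_pos hl0 _
    have h4 : m = m ^ (2 / 3 : ℝ) * m ^ (1 / 3 : ℝ) := by
      rw [← Real.rpow_add hm0]
      norm_num
    have h5 : m / a = 16 * (l ^ (2 / 3 : ℝ) * (m / m ^ (2 / 3 : ℝ))) := by
      rw [ha, hw, hu, Real.div_rpow hm0.le hl0.le]
      field_simp
    have h6 : m / m ^ (2 / 3 : ℝ) = m ^ (1 / 3 : ℝ) := by
      rw [div_eq_iff h2.ne']
      conv_lhs => rw [h4]
      ring
    rw [h5, h6, hK]
  -- growth
  have hE := hta (4 * a) T t (by positivity) (by linarith) hT1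
    (by
      have h1 : 1 < Real.exp (Real.exp 1) := Real.one_lt_exp_iff.2 (Real.exp_pos _)
      linarith) le_rfl
  rw [← hl, hr32, ← hm] at hE
  have hE' : Tame (4 * a) (6 * (C1 * m)) t := hE.mono (by
    have h1 : m / 8 + m + Real.log (1 / (4 * a)) ≤ 6 * m := by linarith
    have h2 := mul_le_mul_of_nonneg_left h1 (by linarith : (0 : ℝ) ≤ C1)
    linarith)
  have hCm : 1 ≤ C1 * m := by nlinarith
  have hG := hgr a (4 * a) (6 * (C1 * m)) t ha0 le_rfl (by linarith) (by linarith) hE'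
  have hG2 : Gr a t (10 * (C1 * C2) * m) := by
    refine hG.mono ?_
    have h1 : 6 * (C1 * m) + Real.log (1 / a) ≤ 10 * (C1 * m) := by nlinarith
    have h2 := mul_le_mul_of_nonneg_left h1 (by linarith : (0 : ℝ) ≤ C2)
    linarith
  set δ : ℝ := min (c / (2 * V)) a with hδ
  have hδ0 : 0 < δ := lt_min (by positivity) ha0
  have h1δ : 1 / δ ≤ (2 / c + 16) * V := by
    have h1 : 1 / δ ≤ 2 * V / c + 16 * V := by
      rcases min_choice (c / (2 * V)) a with h | h
      · rw [hδ, h, one_div_div]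
        have : 0 ≤ 16 * V := by linarith
        linarith
      · rw [hδ, h]
        have h2 : 0 ≤ 2 * V / c := by positivity
        linarith
    have h2 : (2 / c + 16) * V = 2 * V / c + 16 * V := by ring
    rw [h2]
    exact h1
  have hzero : ∀ z : ℂ, riemannZeta z = 0 → ‖pt a t - z‖ < 2 * a → δ ≤ 1 - z.re := by
    intro z hz hza
    have h1 : |(pt a t - z).re| ≤ ‖pt a t - z‖ := Complex.abs_re_le_norm _
    have h2 : |(pt a t - z).im| ≤ ‖pt a t - z‖ := Complex.abs_im_le_norm _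
    have h3 : (pt a t - z).re = 1 + a - z.re := by simp [pt]
    have h4 : (pt a t - z).im = t - z.im := by simp [pt]
    rw [h3] at h1
    rw [h4] at h2
    have h5 := le_abs_self (1 + a - z.re)
    have hzre : 0 < z.re := by linarith
    have h6 := hvk z hz hzre
    have h7 : |z.im| ≤ T + 1 := by
      have h8 : |z.im| ≤ |t| + |t - z.im| := by
        have h9 := abs_sub_abs_le_abs_sub z.im t
        rw [abs_sub_comm z.im t] at h9
        linarith
      rw [← hT] at h8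
      linarith
    have h8 : vklam |z.im| ≤ 2 * V :=
      (vklam_mono (abs_nonneg _) h7).trans (vklam_succ hT0.le)
    have h9 : 0 < 1 - z.re := by
      by_contra hneg
      rw [not_lt] at hneg
      have h10 : (1 - z.re) * vklam |z.im| ≤ 0 :=
        mul_nonpos_of_nonpos_of_nonneg hneg (by linarith [vklam_ge (abs_nonneg z.im)])
      linarith
    have h10 : c ≤ (1 - z.re) * (2 * V) := h6.trans (mul_le_mul_of_nonneg_left h8 h9.le)
    refine (min_le_left _ _).trans ?_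
    rw [div_le_iff₀ (by positivity)]
    exact h10
  have hΛ : 10 * (C1 * C2) * m / a ≤ 160 * (C1 * C2) * V := by
    have h1 : 10 * (C1 * C2) * m / a = 10 * (C1 * C2) * (m / a) := by ring
    rw [h1, hma]
    have h2 := mul_le_mul_of_nonneg_left hKV (by positivity : (0 : ℝ) ≤ 160 * (C1 * C2))
    linarith
  rcases le_or_gt b δ with h | h
  · have h1 := hnv a t (10 * (C1 * C2) * m) δ b ha0 (by linarith)
      (by
        have h1 : 1 < Real.exp (Real.exp 1) := Real.one_lt_exp_iff.2 (Real.exp_pos _)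
        rw [← hT]
        linarith) hG2 hb h (min_le_right _ _) hzero
    refine h1.trans ?_
    have h2 : 10 * (C1 * C2) * m / a + 1 / δ ≤ (160 * (C1 * C2) + (2 / c + 16)) * V := by linarith
    have h3 := mul_le_mul_of_nonneg_left h2 (by linarith : (0 : ℝ) ≤ C4)
    have h4 : 0 ≤ (2 / c + 16) * V := by positivity
    have h5 : 0 ≤ C3 * V := by positivity
    linarith
  · have h1 := (hlow b hb hb1).1 t
    refine le_trans h1 ?_
    have h2 : 1 / b ≤ 1 / δ := one_div_le_one_div_of_le hδ0 h.le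
    have h3 : C3 ≤ C3 * V := le_mul_of_one_le_right (by linarith) hV0
    have h4 : 0 ≤ C4 * (160 * (C1 * C2) + (2 / c + 16)) * V := by positivity
    linarith

end Pool.Agent.H76.LP
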