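import Mathlib
import Pool.Agent.H76.LF.Low

/-!
# NVb: `ζ'/ζ` at bounded heights

PROOF: `g = zetaPole'/zetaPole` is continuous where `zetaPole ≠ 0`, in particular on the compact set
`{1 ≤ Re s ≤ 2, |Im s| ≤ T0}` (`zetaPole_ne_zero_of_one_le`), so `‖g‖ ≤ M` there; for `Re s > 1`:
`ζ'/ζ (s) = g(s) - 1/(s-1)` (`neg_logDeriv_zetaPole`, see the private lemma `real_pt` in `LF/Low.lean`, which is the
case of real points), and `pt b t - 1 = b + ti`.  `C = max M 1`.  About 70 lines.
-/

set_option autoImplicit false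

open Complex

namespace Pool.Agent.H76.LP

open Pool.Agent.H6 Pool.Agent.H6.Win Pool.Agent.H76.CR

theorem nvb (T0 : ℝ) : ∃ C : ℝ, 1 ≤ C ∧ ∀ b t : ℝ, 0 < b → b ≤ 1 → |t| ≤ T0 →
    ‖deriv riemannZeta (pt b t) / riemannZeta (pt b t) + 1 / ((b : ℂ) + t * I)‖ ≤ C := by
  set g : ℂ → ℂ := fun z => deriv zetaPole z / zetaPole z with hg
  have hgc : ContinuousOn (fun p : ℝ × ℝ => g (pt p.1 p.2)) (Set.Icc 0 1 ×ˢ Set.Icc (-T0) T0) := by
    intro x hx
    have hre : 1 ≤ (pt x.1 x.2).re := by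
      have h0 : 0 ≤ x.1 := hx.1.1
      unfold pt
      simp [h0]
    have hne : zetaPole (pt x.1 x.2) ≠ 0 := zetaPole_ne_zero_of_one_le hre
    have h1 : ContinuousAt (deriv zetaPole) (pt x.1 x.2) :=
      ((zetaPole_differentiable.analyticAt _).deriv).continuousAt
    have h2 : ContinuousAt zetaPole (pt x.1 x.2) := zetaPole_differentiable.continuous.continuousAt
    have h3 : ContinuousAt g (pt x.1 x.2) := h1.div h2 hne
    have h4 : Continuous (fun p : ℝ × ℝ => pt p.1 p.2) := by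
      unfold pt
      fun_prop
    exact (ContinuousAt.comp (f := fun p : ℝ × ℝ => pt p.1 p.2) (g := g) h3
      h4.continuousAt).continuousWithinAt
  obtain ⟨M, hM⟩ := (isCompact_Icc.prod isCompact_Icc).exists_bound_of_continuousOn hgc
  refine ⟨max M 1, le_max_right _ _, fun b t hb hb1 ht => ?_⟩
  have hz1 : 1 < (pt b t).re := by
    unfold pt
    simp [hb]
  have h2 := neg_logDeriv_zetaPole hz1
  have h3 := hM (b, t) ⟨⟨hb.le, hb1⟩, abs_le.1 ht⟩
  have e : deriv riemannZeta (pt b t) / riemannZeta (pt b t) + 1 / ((b : ℂ) + t * I) = g (pt b t) := by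
    rw [hg]
    have e1 : (b : ℂ) + t * I = pt b t - 1 := by
      unfold pt
      push_cast
      ring
    rw [e1]
    have e2 := ArithmeticFunction.LSeries_vonMangoldt_eq_deriv_riemannZeta_div hz1
    rw [e2] at h2
    simp only [div_eq_mul_inv, one_mul] at h2 ⊢
    linear_combination h2
  rw [e]
  exact h3.trans (le_max_left _ _)

end Pool.Agent.H76.LP
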