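import Mathlib
import Pool.Agent.H76.LP.NVa
import Pool.Agent.H76.LP.NVb

/-!
# NV: `ζ'/ζ` to the right of the line `Re s = 1`

PROOF: `nva` for `|t| ≥ T0 ≥ 1` (there `‖1/(b + ti)‖ ≤ 1 ≤ vklam |t|`), `nvb T0` for `|t| ≤ T0` (`vklam_ge`).
About 40 lines.
-/

set_option autoImplicit false

open Complex

namespace Pool.Agent.H76.LP

open Pool.Agent.H76.CR Pool.Agent.H52.ZR

theorem nv : ∃ C : ℝ, 1 ≤ C ∧ ∀ b t : ℝ, 0 < b → b ≤ 1 →
    ‖deriv riemannZeta (pt b t) / riemannZeta (pt b t) + 1 / ((b : ℂ) + t * I)‖ ≤ C * vklam |t| := by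
  obtain ⟨T0, C1, hT0, hC1, h1⟩ := nva
  obtain ⟨C2, hC2, h2⟩ := nvb T0
  refine ⟨max (C1 + 1) C2, le_max_of_le_right hC2, fun b t hb hb1 => ?_⟩
  have hv : 1 ≤ vklam |t| := vklam_ge (abs_nonneg t)
  rcases le_total T0 |t| with h | h
  · have h3 := h1 b t hb hb1 h
    have h4 : ‖1 / ((b : ℂ) + t * I)‖ ≤ 1 := by
      have h5 : |t| ≤ ‖(b : ℂ) + t * I‖ := by
        have h6 := Complex.abs_im_le_norm ((b : ℂ) + t * I)
        simpa using h6
      have h7 : (1 : ℝ) ≤ ‖(b : ℂ) + t * I‖ := hT0.trans (h.trans h5)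
      rw [norm_div, norm_one, div_le_one (by linarith)]
      exact h7
    refine (norm_add_le _ _).trans ?_
    have h8 : (C1 + 1) * vklam |t| ≤ max (C1 + 1) C2 * vklam |t| :=
      mul_le_mul_of_nonneg_right (le_max_left _ _) (by linarith)
    linarith
  · have h3 := h2 b t hb hb1 h
    have h8 : C2 * vklam |t| ≤ max (C1 + 1) C2 * vklam |t| :=
      mul_le_mul_of_nonneg_right (le_max_right _ _) (by linarith)
    have h9 : C2 * 1 ≤ C2 * vklam |t| := mul_le_mul_of_nonneg_left hv (by linarith)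
    linarith

end Pool.Agent.H76.LP
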