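import Mathlib
import Pool.Agent.H76.RP.Dk0

/-!
# TS: Taylor expansion of `Dk b 0 t` at `1 + a + it`

PROOF: `b = (1 - q) a > 0`.  For every `n`: `∑_k (qa)^k dco a k n = Λ(n) n^(-(1+a)) exp (qa log n) = dco b 0 n`
(`n ≥ 1`: `n^(-(1+a)) n^(qa) = n^(-(1+b))`; `n = 0`: both sides `0` as `Λ(0) = 0`; `Real.exp` as a `tsum`/`HasSum`:
`Real.hasSum_exp` or `NormedSpace.expSeries_div_hasSum_exp`).  All terms are `≥ 0` and `dco b 0` is summable
(`summable_dco`), so the double series is absolutely summable and `Dk b 0 t = ∑_k (qa)^k Dk a k t`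
(`Summable.tsum_comm`, norms `‖n^(-it)‖ ≤ 1`).  `‖Dk a k t‖ ≤ ∑' n, dco a k n ≤ (1 + C1/2^k)/a^(k+1) ≤ (1+C1)/a^(k+1)`
(`dk0`, `Dk_zero`), so `‖(qa)^k Dk a k t‖ ≤ (1+C1) q^k/a`; the terms `k < k0` add up to at most `(1+C1) k0/a`, those
with `k ≥ K` to at most `(1+C1) q^K/((1-q) a) ≤ (1+C1)/a`.  `C = 1 + C1`.  About 180 lines.
-/

set_option autoImplicit false

open Complex

namespace Pool.Agent.H76.LP

open Pool.Agent.H76.CR Pool.Agent.H76.RP

private lemma dco_zero_idx (a : ℝ) (k : ℕ) : dco a k 0 = 0 := by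
  unfold dco
  simp

private lemma hasSum_dco (a c : ℝ) (n : ℕ) :
    HasSum (fun k : ℕ => c ^ k * dco a k n) (dco (a - c) 0 n) := by
  rcases Nat.eq_zero_or_pos n with h0 | hn
  · subst h0
    simp only [dco_zero_idx, mul_zero]
    exact hasSum_zero
  · have hn' : (0 : ℝ) < n := by exact_mod_cast hn
    have h1 : HasSum (fun k : ℕ => (c * Real.log n) ^ k / (k.factorial : ℝ))
        (Real.exp (c * Real.log n)) := by
      have h := NormedSpace.expSeries_div_hasSum_exp (c * Real.log n)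
      rwa [← Real.exp_eq_exp_ℝ] at h
    have h2 := h1.mul_left (ArithmeticFunction.vonMangoldt n * (n : ℝ) ^ (-(1 + a)))
    have h3 : ArithmeticFunction.vonMangoldt n * (n : ℝ) ^ (-(1 + a)) *
        Real.exp (c * Real.log n) = dco (a - c) 0 n := by
      unfold dco
      rw [pow_zero, Nat.factorial_zero, Nat.cast_one, div_one, mul_one, mul_assoc]
      congr 1
      rw [mul_comm c, Real.exp_mul, Real.exp_log hn', ← Real.rpow_add hn']
      congr 1
      ring
    rw [h3] at h2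
    refine h2.congr_fun ?_ |>.trans_eq rfl
    intro k
    unfold dco
    rw [mul_pow]
    ring

theorem taySum : ∃ r1 C : ℝ, 0 < r1 ∧ r1 ≤ 1 / 16 ∧ 1 ≤ C ∧ ∀ (a q t : ℝ) (k0 K : ℕ), 0 < a → a ≤ r1 →
    0 < q → q < 1 → k0 ≤ K → q ^ K ≤ 1 - q →
    ‖Dk ((1 - q) * a) 0 t - ∑ k ∈ Finset.Ico k0 K, ((q * a : ℝ) : ℂ) ^ k * Dk a k t‖ ≤
      C * (k0 + 1) / a := by
  obtain ⟨r1, C1, hr1, hr16, hC1, H⟩ := dk0
  refine ⟨r1, 1 + C1, hr1, hr16, by linarith, ?_⟩
  intro a q t k0 K ha har hq hq1 hk hqK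
  have hb : 0 < (1 - q) * a := mul_pos (by linarith) ha
  have hqa : 0 ≤ q * a := by positivity
  have hba : a - q * a = (1 - q) * a := by ring
  -- the double family
  set F : ℕ → ℕ → ℂ := fun n k =>
    ((q * a : ℝ) : ℂ) ^ k * ((dco a k n : ℂ) * (n : ℂ) ^ (-(t * I))) with hF
  have hnorm1 : ∀ n : ℕ, ‖(n : ℂ) ^ (-(t * I))‖ ≤ 1 := by
    intro n
    rcases Nat.eq_zero_or_pos n with h0 | hn
    · subst h0
      by_cases ht : (-(t * I) : ℂ) = 0
      · rw [ht, Complex.cpow_zero, norm_one]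
      · rw [Nat.cast_zero, Complex.zero_cpow ht, norm_zero]
        exact zero_le_one
    · rw [Complex.norm_natCast_cpow_of_pos hn]
      simp
  have hFn : ∀ n k : ℕ, ‖F n k‖ ≤ (q * a) ^ k * dco a k n := by
    intro n k
    simp only [hF]
    rw [norm_mul, norm_mul, norm_pow, Complex.norm_real, Complex.norm_real, Real.norm_eq_abs,
      Real.norm_eq_abs, abs_of_nonneg hqa, abs_of_nonneg (dco_nonneg a k n)]
    have h1 := mul_nonneg (pow_nonneg hqa k) (dco_nonneg a k n)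
    calc (q * a) ^ k * (dco a k n * ‖(n : ℂ) ^ (-(t * I))‖)
        = (q * a) ^ k * dco a k n * ‖(n : ℂ) ^ (-(t * I))‖ := by ring
      _ ≤ (q * a) ^ k * dco a k n * 1 := mul_le_mul_of_nonneg_left (hnorm1 n) h1
      _ = _ := by ring
  have hsumR : Summable (fun p : ℕ × ℕ => (q * a) ^ p.2 * dco a p.2 p.1) := by
    rw [summable_prod_of_nonneg]
    · refine ⟨fun n => (hasSum_dco a (q * a) n).summable, ?_⟩
      have h1 : (fun n : ℕ => ∑' k : ℕ, (q * a) ^ k * dco a k n) = dco ((1 - q) * a) 0 := by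
        funext n
        rw [(hasSum_dco a (q * a) n).tsum_eq, hba]
      show Summable (fun n : ℕ => ∑' k : ℕ, (q * a) ^ k * dco a k n)
      rw [h1]
      exact summable_dco hb 0
    · intro p
      exact mul_nonneg (pow_nonneg hqa _) (dco_nonneg _ _ _)
  have hsumF : Summable (Function.uncurry F) :=
    Summable.of_norm_bounded hsumR fun p => hFn p.1 p.2
  have hcomm := hsumF.tsum_comm
  -- left side
  have hL : ∀ n : ℕ, ∑' k : ℕ, F n k = (dco ((1 - q) * a) 0 n : ℂ) * (n : ℂ) ^ (-(t * I)) := by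
    intro n
    have h1 := hasSum_dco a (q * a) n
    rw [hba] at h1
    have h2 : HasSum (fun k : ℕ => (((q * a) ^ k * dco a k n : ℝ) : ℂ))
        ((dco ((1 - q) * a) 0 n : ℝ) : ℂ) := Complex.hasSum_ofReal.2 h1
    have h3 := h2.mul_right ((n : ℂ) ^ (-(t * I)))
    rw [← h3.tsum_eq]
    refine tsum_congr fun k => ?_
    simp only [hF]
    push_cast
    ring
  have hR : ∀ k : ℕ, ∑' n : ℕ, F n k = ((q * a : ℝ) : ℂ) ^ k * Dk a k t := by
    intro k
    simp only [hF]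
    rw [tsum_mul_left]
    rfl
  have hD : Dk ((1 - q) * a) 0 t = ∑' k : ℕ, ((q * a : ℝ) : ℂ) ^ k * Dk a k t := by
    have h1 : Dk ((1 - q) * a) 0 t = ∑' n : ℕ, ∑' k : ℕ, F n k := by
      rw [tsum_congr hL]
      rfl
    rw [h1, ← hcomm]
    exact tsum_congr hR
  -- bounds
  have hSk : ∀ k : ℕ, ∑' n : ℕ, dco a k n ≤ (1 + C1) / a ^ (k + 1) := by
    intro k
    have h1 := (abs_le.1 (H a k ha har)).2
    have h2 : C1 / 2 ^ k ≤ C1 := div_le_self (by linarith) (one_le_pow₀ (by norm_num))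
    rw [le_div_iff₀ (by positivity)]
    nlinarith
  have hDk : ∀ k : ℕ, ‖Dk a k t‖ ≤ (1 + C1) / a ^ (k + 1) := by
    intro k
    refine le_trans ?_ (hSk k)
    unfold Dk
    refine tsum_of_norm_bounded (summable_dco ha k).hasSum fun n => ?_
    rw [norm_mul, Complex.norm_real, Real.norm_eq_abs, abs_of_nonneg (dco_nonneg a k n)]
    calc dco a k n * ‖(n : ℂ) ^ (-(t * I))‖ ≤ dco a k n * 1 :=
          mul_le_mul_of_nonneg_left (hnorm1 n) (dco_nonneg a k n)
      _ = _ := mul_one _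
  have hf : ∀ k : ℕ, ‖((q * a : ℝ) : ℂ) ^ k * Dk a k t‖ ≤ (1 + C1) / a * q ^ k := by
    intro k
    rw [norm_mul, norm_pow, Complex.norm_real, Real.norm_eq_abs, abs_of_nonneg hqa]
    calc (q * a) ^ k * ‖Dk a k t‖ ≤ (q * a) ^ k * ((1 + C1) / a ^ (k + 1)) :=
          mul_le_mul_of_nonneg_left (hDk k) (by positivity)
      _ = (1 + C1) / a * q ^ k := by
          rw [mul_pow, pow_succ]
          field_simp
  have hgeo : Summable (fun k : ℕ => (1 + C1) / a * q ^ k) :=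
    (summable_geometric_of_lt_one hq.le hq1).mul_left _
  have hfs : Summable (fun k : ℕ => ((q * a : ℝ) : ℂ) ^ k * Dk a k t) :=
    Summable.of_norm_bounded hgeo hf
  have hsplit := hfs.sum_add_tsum_nat_add K
  have hIco := Finset.sum_range_add_sum_Ico (fun k : ℕ => ((q * a : ℝ) : ℂ) ^ k * Dk a k t) hk
  have hdiff : Dk ((1 - q) * a) 0 t - ∑ k ∈ Finset.Ico k0 K, ((q * a : ℝ) : ℂ) ^ k * Dk a k t =
      ∑ k ∈ Finset.range k0, ((q * a : ℝ) : ℂ) ^ k * Dk a k t +
        ∑' k : ℕ, ((q * a : ℝ) : ℂ) ^ (k + K) * Dk a (k + K) t := by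
    rw [hD, ← hsplit, ← hIco]
    ring
  rw [hdiff]
  have hC : 0 ≤ (1 + C1) / a := by positivity
  have hhead : ‖∑ k ∈ Finset.range k0, ((q * a : ℝ) : ℂ) ^ k * Dk a k t‖ ≤
      (1 + C1) / a * k0 := by
    refine (norm_sum_le _ _).trans ?_
    calc ∑ k ∈ Finset.range k0, ‖((q * a : ℝ) : ℂ) ^ k * Dk a k t‖
        ≤ ∑ k ∈ Finset.range k0, (1 + C1) / a := by
          refine Finset.sum_le_sum fun k _ => (hf k).trans ?_
          calc (1 + C1) / a * q ^ k ≤ (1 + C1) / a * 1 :=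
                mul_le_mul_of_nonneg_left (pow_le_one₀ hq.le hq1.le) hC
            _ = _ := mul_one _
      _ = (1 + C1) / a * k0 := by
          rw [Finset.sum_const, Finset.card_range, nsmul_eq_mul]
          ring
  have htail : ‖∑' k : ℕ, ((q * a : ℝ) : ℂ) ^ (k + K) * Dk a (k + K) t‖ ≤ (1 + C1) / a := by
    have h1 : HasSum (fun k : ℕ => (1 + C1) / a * q ^ K * q ^ k)
        ((1 + C1) / a * q ^ K * (1 - q)⁻¹) :=
      (hasSum_geometric_of_lt_one hq.le hq1).mul_left _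
    refine (tsum_of_norm_bounded h1 fun k => ?_).trans ?_
    · refine (hf (k + K)).trans (le_of_eq ?_)
      rw [pow_add]
      ring
    · have h2 : q ^ K * (1 - q)⁻¹ ≤ 1 := by
        rw [← div_eq_mul_inv, div_le_one (by linarith)]
        exact hqK
      calc (1 + C1) / a * q ^ K * (1 - q)⁻¹ = (1 + C1) / a * (q ^ K * (1 - q)⁻¹) := by ring
        _ ≤ (1 + C1) / a * 1 := mul_le_mul_of_nonneg_left h2 hC
        _ = _ := mul_one _
  refine (norm_add_le _ _).trans ?_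
  calc _ ≤ (1 + C1) / a * k0 + (1 + C1) / a := add_le_add hhead htail
    _ = (1 + C1) * (k0 + 1) / a := by ring

end Pool.Agent.H76.LP
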