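import Mathlib
import Pool.Agent.H76.GL.Main
import Pool.Agent.H76.LP.TS
import Pool.Agent.H76.LP.CoreI

/-!
# Pri: `-ζ'/ζ` just to the right of the line at a combination of ordinates

PROOF: as `core` in `GL/Main.lean`: `a = r0 r` with `r0` the minimum of the radii of `taySum`, `coreI`, `coreL` divided
by `4` (so `4a ≤ r`), `Gr a (Im ρ) Λ` from `grT` with `Λ = CT (E + log (1/a))` (`1 ≤ E`), `params` compares
`log (3 Λ)`, `log (3 Λ len)` with `LL E S k` (see there how `core` does it; `1 ≤ len S k` is `len_ge`).  `coreI` in the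
first case (`zc r ≤ 1`), `coreL` in the second (its hypotheses: `dep log (3Λ) ≤ c a`, `dep num log (3Λ) ≤ c a`; note
`log (3 Λ) ≤ C6 LL`), both with `(1 - q) a = 32 dep`.  Then `taySum` (`t = comb S k`): `Re Dk b 0 t` differs from
`∑ (qa)^k Re Dk a k t` by at most `C (k0+1)/a ≤ C C4 C6 LL/(r0 r) ≤ (1/8)/(32 dep)` for `c` small
(`dep LL ≤ c r`), `|sg| = 1` (`sg_sq`).  About 200 lines.
-/

set_option autoImplicit false

open Complex

namespace Pool.Agent.H76.LP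

open Pool.Agent.H76.CR Pool.Agent.H76.RP Pool.Agent.H76.GS Pool.Agent.H76.GL

private theorem pri_fin {a q t d sgn : ℝ} {k0 K : ℕ} (hs : sgn = 1 ∨ sgn = -1)
    (hq : (1 - q) * a = 32 * d)
    (h34 : 3 / 4 / (32 * d) ≤ sgn * ∑ k ∈ Finset.Ico k0 K, (q * a) ^ k * (Dk a k t).re)
    (hT : ‖Dk ((1 - q) * a) 0 t - ∑ k ∈ Finset.Ico k0 K, ((q * a : ℝ) : ℂ) ^ k * Dk a k t‖ ≤
      1 / 8 / (32 * d)) :
    5 / 8 / (32 * d) ≤ sgn * (Dk (32 * d) 0 t).re := by
  rw [hq] at hT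
  have h1 := (Complex.abs_re_le_norm _).trans hT
  rw [Complex.sub_re, Complex.re_sum] at h1
  have h2 : ∀ k ∈ Finset.Ico k0 K, (((q * a : ℝ) : ℂ) ^ k * Dk a k t).re =
      (q * a) ^ k * (Dk a k t).re := by
    intro k _
    rw [← Complex.ofReal_pow, Complex.re_ofReal_mul]
  rw [Finset.sum_congr rfl h2] at h1
  have h3 : 3 / 4 / (32 * d) - 1 / 8 / (32 * d) = 5 / 8 / (32 * d) := by ring
  rw [abs_le] at h1
  rcases hs with h | h <;> rw [h] at h34 ⊢ <;> linarith [h1.1, h1.2]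

theorem pri : ∃ c : ℝ, 0 < c ∧ c ≤ 1 ∧ ∀ (r E : ℝ) (S : Finset ℂ) (k : ℂ → ℤ), 0 < r → r ≤ 1 →
    1 + Real.log (1 / r) ≤ E →
    (∀ ρ ∈ S, riemannZeta ρ = 0 ∧ 1 ≤ |ρ.im| ∧ Tame r E ρ.im) → 0 < dep S k →
    dep S k * LL E S k ≤ c * r →
    ((∀ ρ ∈ S, zc r ρ.im ≤ 1) ∨ dep S k * num r S k * LL E S k ≤ c * r) →
    5 / 8 / (32 * dep S k) ≤ sg S k * (Dk (32 * dep S k) 0 (comb S k)).re := by
  obtain ⟨r1, Ct, hr1, hr1', hCt, htay⟩ := taySum
  obtain ⟨r2, c2, C2, hr2, hr2', hc2, hc2', hC2, hI⟩ := coreI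
  obtain ⟨r3, C1, c3, C3, hr3, hr3', hC1, hc3, hc3', hC3, -, hL⟩ := coreL
  obtain ⟨CT, hCT, hgT⟩ := grT
  set r0 : ℝ := min r1 (min r2 r3) with hr0def
  have hr0 : 0 < r0 := lt_min hr1 (lt_min hr2 hr3)
  have h01 : r0 ≤ r1 := min_le_left _ _
  have h02 : r0 ≤ r2 := (min_le_right _ _).trans (min_le_left _ _)
  have h03 : r0 ≤ r3 := (min_le_right _ _).trans (min_le_right _ _)
  have h016 : r0 ≤ 1 / 16 := h01.trans hr1'
  obtain ⟨C6, hC6, hpar⟩ := params (r0 := r0) (CT := CT) hr0 (by linarith) hCT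
  set cm : ℝ := min c2 c3 with hcm
  have hcm0 : 0 < cm := lt_min hc2 hc3
  have m2 : cm ≤ c2 := min_le_left _ _
  have m3 : cm ≤ c3 := min_le_right _ _
  set Cm : ℝ := max C2 C3 with hCm
  have hCm1 : 1 ≤ Cm := hC2.trans (le_max_left _ _)
  set c : ℝ := min 1 (min (cm * r0 / C6) (r0 / (256 * (Ct * (Cm * C6))))) with hc
  have hC60 : 0 < C6 := by linarith
  have hCt0 : 0 < Ct := by linarith
  have hCm0 : 0 < Cm := by linarith
  have hc0 : 0 < c := lt_min one_pos (lt_min (by positivity) (by positivity))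
  have hc1' : c ≤ 1 := min_le_left _ _
  have hcC : C6 * c ≤ cm * r0 := by
    have h : c ≤ cm * r0 / C6 := (min_le_right _ _).trans (min_le_left _ _)
    rw [le_div_iff₀ hC60] at h
    linarith
  have hcD : 256 * (Ct * (Cm * C6)) * c ≤ r0 := by
    have h : c ≤ r0 / (256 * (Ct * (Cm * C6))) := (min_le_right _ _).trans (min_le_right _ _)
    rw [le_div_iff₀ (by positivity)] at h
    linarith
  refine ⟨c, hc0, hc1', ?_⟩
  intro r E S k hr hr1x hE hS hd hdL hN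
  have hlen := len_ge hd
  have hE1 : 1 ≤ E := by
    have : 0 ≤ Real.log (1 / r) := Real.log_nonneg (by rw [le_div_iff₀ hr]; linarith)
    linarith
  obtain ⟨p1, p2, p3, p4, p5⟩ := hpar r E (len S k) hr hr1x hE hlen
  set a : ℝ := r0 * r with ha
  have ha0 : 0 < a := mul_pos hr0 hr
  have har0 : a ≤ r0 := by rw [ha]; nlinarith
  have h4a : 4 * a ≤ r := by rw [ha]; nlinarith
  set Λ : ℝ := CT * (E + Real.log (1 / a)) with hΛ
  have hLLdef : LL E S k = Real.log ((2 + E) * len S k) := rfl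
  rw [hLLdef] at hdL hN
  set L : ℝ := Real.log ((2 + E) * len S k) with hLdef
  have hGr : ∀ ρ ∈ S, Gr a ρ.im Λ := fun ρ hρ => hgT a r E ρ.im ha0 h4a hr1x hE1 (hS ρ hρ).2.2
  have hdC : C6 * (dep S k * L) ≤ cm * a := by
    calc C6 * (dep S k * L) ≤ C6 * (c * r) := mul_le_mul_of_nonneg_left hdL (by linarith)
      _ = C6 * c * r := by ring
      _ ≤ cm * r0 * r := mul_le_mul_of_nonneg_right hcC hr.le
      _ = cm * a := by rw [ha]; ring
  have hd1 : dep S k * Real.log (3 * Λ * len S k) ≤ cm * a := by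
    refine le_trans ?_ hdC
    calc dep S k * Real.log (3 * Λ * len S k) ≤ dep S k * (C6 * L) :=
          mul_le_mul_of_nonneg_left p2 hd.le
      _ = C6 * (dep S k * L) := by ring
  have hd2 : dep S k * Real.log (3 * Λ) ≤ cm * a := by
    refine le_trans ?_ hdC
    calc dep S k * Real.log (3 * Λ) ≤ dep S k * (C6 * L) :=
          mul_le_mul_of_nonneg_left p3 hd.le
      _ = C6 * (dep S k * L) := by ring
  have hL0 : 0 < L := by linarith
  -- the error of the Taylor expansion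
  have herr : ∀ (q : ℝ) (k0 K : ℕ) (M C' : ℝ), 0 < q → q < 1 → k0 ≤ K → q ^ K ≤ 1 - q →
      0 < M → M ≤ C6 * L → C' ≤ Cm → (k0 : ℝ) + 1 ≤ C' * M →
      ‖Dk ((1 - q) * a) 0 (comb S k) -
        ∑ j ∈ Finset.Ico k0 K, ((q * a : ℝ) : ℂ) ^ j * Dk a j (comb S k)‖ ≤
        1 / 8 / (32 * dep S k) := by
    intro q k0 K M C' hq hq1 hkK hqK hM hML hC' hk0
    refine (htay a q (comb S k) k0 K ha0 (har0.trans h01) hq hq1 hkK hqK).trans ?_
    rw [div_div, div_le_div_iff₀ ha0 (by positivity)]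
    have h1 : (k0 : ℝ) + 1 ≤ Cm * (C6 * L) :=
      hk0.trans ((mul_le_mul_of_nonneg_right hC' hM.le).trans
        (mul_le_mul_of_nonneg_left hML hCm0.le))
    have h2 : Ct * ((k0 : ℝ) + 1) * (8 * (32 * dep S k)) ≤
        Ct * (Cm * (C6 * L)) * (8 * (32 * dep S k)) :=
      mul_le_mul_of_nonneg_right (mul_le_mul_of_nonneg_left h1 hCt0.le) (by positivity)
    have h3 : Ct * (Cm * (C6 * L)) * (8 * (32 * dep S k)) =
        256 * (Ct * (Cm * C6)) * (dep S k * L) := by ring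
    have h4 : 256 * (Ct * (Cm * C6)) * (dep S k * L) ≤ 256 * (Ct * (Cm * C6)) * (c * r) :=
      mul_le_mul_of_nonneg_left hdL (by positivity)
    have h5 : 256 * (Ct * (Cm * C6)) * (c * r) = 256 * (Ct * (Cm * C6)) * c * r := by ring
    have h6 : 256 * (Ct * (Cm * C6)) * c * r ≤ r0 * r := mul_le_mul_of_nonneg_right hcD hr.le
    linarith
  rcases hN with hN | hN
  · have hSI : ∀ ρ ∈ S, riemannZeta ρ = 0 ∧ 1 ≤ |ρ.im| ∧ zc r ρ.im ≤ 1 ∧ Gr a ρ.im Λ :=
      fun ρ hρ => ⟨(hS ρ hρ).1, (hS ρ hρ).2.1, hN ρ hρ, hGr ρ hρ⟩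
    obtain ⟨q, k0, K, hq, hq1, hqa, hkK, hqK, hk0, hsum⟩ :=
      hI a r Λ S k ha0 (har0.trans h02) (by linarith) hr1x hSI hd
        (hd1.trans (mul_le_mul_of_nonneg_right m2 ha0.le))
    exact pri_fin (sg_sq S k) hqa hsum
      (herr q k0 K _ C2 hq hq1 hkK hqK p5 p2 (le_max_left _ _) hk0)
  · have hSL : ∀ ρ ∈ S, riemannZeta ρ = 0 ∧ 1 ≤ |ρ.im| ∧ Gr a ρ.im Λ :=
      fun ρ hρ => ⟨(hS ρ hρ).1, (hS ρ hρ).2.1, hGr ρ hρ⟩
    have hnum0 : 0 ≤ num r S k := by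
      unfold num
      exact mul_nonneg (len_nonneg S k) (Finset.sum_nonneg fun ρ _ =>
        mul_nonneg (abs_nonneg _) (Nat.cast_nonneg _))
    have hd3 : dep S k * num r S k * Real.log (3 * Λ) ≤ cm * a := by
      calc dep S k * num r S k * Real.log (3 * Λ) ≤ dep S k * num r S k * (C6 * L) :=
            mul_le_mul_of_nonneg_left p3 (mul_nonneg hd.le hnum0)
        _ = C6 * (dep S k * num r S k * L) := by ring
        _ ≤ C6 * (c * r) := mul_le_mul_of_nonneg_left hN (by linarith)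
        _ = C6 * c * r := by ring
        _ ≤ cm * r0 * r := mul_le_mul_of_nonneg_right hcC hr.le
        _ = cm * a := by rw [ha]; ring
    obtain ⟨q, k0, K, hq, hq1, hqa, hkK, hqK, -, -, hk0, hsum⟩ :=
      hL a r Λ S k ha0 (har0.trans h03) (by linarith) hr1x hSL hd
        (hd2.trans (mul_le_mul_of_nonneg_right m3 ha0.le))
        (hd3.trans (mul_le_mul_of_nonneg_right m3 ha0.le))
    exact pri_fin (sg_sq S k) hqa hsum
      (herr q k0 K _ C3 hq hq1 hkK hqK p4 p3 (le_max_right _ _) hk0)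

end Pool.Agent.H76.LP
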