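import Mathlib
import Pool.Agent.H76.LP.Pri
import Pool.Agent.H76.GL.Main2

/-!
# PriE: the three kinds of hypotheses, and `-ζ'/ζ` instead of `Dk`

PROOF: (1) as in `localLattice` (`GL/Main2.lean`): `pri` at the radius `r/2` with `E + 1`; in the third case
`num (r/2) S k ≤ CJ len² E` by `jen`.  (2) `Dk b 0 t = -ζ'/ζ (pt b t)`: private lemma `lu_Dk` of `LF/LawU.lean` (copy).
`b = 32 dep ≤ 1` since `LL ≥ 1` and `c ≤ 1/32`.  About 120 lines.
-/

set_option autoImplicit false

open Complex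

namespace Pool.Agent.H76.LP

open Pool.Agent.H76.CR Pool.Agent.H76.RP Pool.Agent.H76.GS Pool.Agent.H76.GL

private theorem pe_Dk {b : ℝ} (hb : 0 < b) (t : ℝ) :
    (Dk b 0 t).re = -(deriv riemannZeta (pt b t) / riemannZeta (pt b t)).re := by
  have hre : 1 < (pt b t).re := by
    simp [pt]
    linarith
  have h := ArithmeticFunction.LSeries_vonMangoldt_eq_deriv_riemannZeta_div hre
  have h2 : Dk b 0 t = -(deriv riemannZeta (pt b t) / riemannZeta (pt b t)) := by
    rw [Dk_eq hb 0 t]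
    simp only [pow_zero, Nat.factorial_zero, Nat.cast_one, div_one, iteratedDeriv_zero, one_mul]
    rw [h, neg_div]
  rw [h2, Complex.neg_re]

theorem priE : ∃ c : ℝ, 0 < c ∧ c ≤ 1 / 32 ∧ ∀ (r E : ℝ) (S : Finset ℂ) (k : ℂ → ℤ), 0 < r → r ≤ 1 →
    1 + Real.log (1 / r) ≤ E →
    (∀ ρ ∈ S, riemannZeta ρ = 0 ∧ 1 ≤ |ρ.im| ∧ Tame r E ρ.im) → 0 < dep S k →
    dep S k * LL E S k ≤ c * r →
    ((∀ ρ ∈ S, zc r ρ.im ≤ 1) ∨ dep S k * num r S k * LL E S k ≤ c * r ∨
      dep S k * (len S k ^ 2 * E) * LL E S k ≤ c * r) →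
    dep S k ≤ c * r ∧ 5 / 8 / (32 * dep S k) ≤
      sg S k * (-(deriv riemannZeta (pt (32 * dep S k) (comb S k)) /
        riemannZeta (pt (32 * dep S k) (comb S k))).re) := by
  obtain ⟨c1, hc1, hc11, hcore⟩ := pri
  obtain ⟨CJ, hCJ, hjen⟩ := jen
  set c : ℝ := min (min (c1 / (4 * CJ)) (c1 / 4)) (1 / 32) with hc
  have hc0 : 0 < c := lt_min (lt_min (by positivity) (by linarith)) (by norm_num)
  have m1 : c ≤ c1 / (4 * CJ) := (min_le_left _ _).trans (min_le_left _ _)
  have m3 : c ≤ c1 / 4 := (min_le_left _ _).trans (min_le_right _ _)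
  have m1' : 4 * CJ * c ≤ c1 := by
    rw [le_div_iff₀ (by positivity)] at m1
    linarith
  refine ⟨c, hc0, min_le_right _ _, ?_⟩
  intro r E S k hr hr1 hE hS hd hdL hN
  have hlen := len_ge hd
  have hlr : 0 ≤ Real.log (1 / r) := Real.log_nonneg (by rw [le_div_iff₀ hr]; linarith)
  have hE1 : 1 ≤ E := by linarith
  set L : ℝ := LL E S k with hL
  set L' : ℝ := LL (E + 1) S k with hL'
  have hL1 : 1 ≤ L := by
    rw [hL]
    unfold LL
    rw [Real.le_log_iff_exp_le (by nlinarith)]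
    have := Real.exp_one_lt_d9
    nlinarith
  have hLL : L' ≤ 2 * L := by
    rw [hL', hL]
    unfold LL
    have h1 : (2 + (E + 1)) * len S k ≤ ((2 + E) * len S k) ^ 2 := by
      have h2 : 3 ≤ (2 + E) * len S k := by nlinarith
      have h3 : (2 + (E + 1)) * len S k ≤ 3 * ((2 + E) * len S k) := by nlinarith
      nlinarith
    have h2 := Real.log_le_log (by nlinarith) h1
    rw [Real.log_pow] at h2
    push_cast at h2
    exact h2
  have hL'0 : 0 < L' := by
    rw [hL']
    unfold LL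
    exact Real.log_pos (by nlinarith)
  have hr2 : 0 < r / 2 := by linarith
  have hE2 : 1 + Real.log (1 / (r / 2)) ≤ E + 1 := by
    have h1 : Real.log (1 / (r / 2)) = Real.log 2 + Real.log (1 / r) := by
      rw [show 1 / (r / 2) = 2 * (1 / r) by field_simp, Real.log_mul (by norm_num) (by positivity)]
    have h2 : Real.log 2 ≤ 1 := by
      have := Real.log_two_lt_d9
      linarith
    rw [h1]
    linarith
  have hT2 : ∀ t, Tame r E t → Tame (r / 2) (E + 1) t := fun t h =>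
    (h.mono (by linarith)).mono_r (by linarith)
  have hS2 : ∀ ρ ∈ S, riemannZeta ρ = 0 ∧ 1 ≤ |ρ.im| ∧ Tame (r / 2) (E + 1) ρ.im :=
    fun ρ hρ => ⟨(hS ρ hρ).1, (hS ρ hρ).2.1, hT2 _ (hS ρ hρ).2.2⟩
  have hcc : 2 * c * r ≤ c1 * (r / 2) := by
    have := mul_le_mul_of_nonneg_right m3 hr.le
    linarith
  have hcJ : CJ * (2 * c) * r ≤ c1 * (r / 2) := by
    have := mul_le_mul_of_nonneg_right m1' hr.le
    linarith
  have hd2 : dep S k * L' ≤ c1 * (r / 2) := by
    calc dep S k * L' ≤ dep S k * (2 * L) := mul_le_mul_of_nonneg_left hLL hd.le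
      _ = 2 * (dep S k * L) := by ring
      _ ≤ 2 * (c * r) := mul_le_mul_of_nonneg_left hdL (by norm_num)
      _ = 2 * c * r := by ring
      _ ≤ c1 * (r / 2) := hcc
  have hN2 : (∀ ρ ∈ S, zc (r / 2) ρ.im ≤ 1) ∨
      dep S k * num (r / 2) S k * L' ≤ c1 * (r / 2) := by
    rcases hN with hN | hN | hN
    · exact Or.inl fun ρ hρ => (zc_mono (by linarith) hr1 _).trans (hN ρ hρ)
    · right
      have h1 : num (r / 2) S k ≤ num r S k := by
        unfold num
        refine mul_le_mul_of_nonneg_left (Finset.sum_le_sum fun ρ _ => ?_) (len_nonneg S k)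
        refine mul_le_mul_of_nonneg_left ?_ (abs_nonneg _)
        exact_mod_cast zc_mono (by linarith) hr1 _
      have h0 : 0 ≤ num r S k := by
        unfold num
        exact mul_nonneg (len_nonneg S k) (Finset.sum_nonneg fun ρ _ =>
          mul_nonneg (abs_nonneg _) (Nat.cast_nonneg _))
      calc dep S k * num (r / 2) S k * L' ≤ dep S k * num r S k * (2 * L) :=
            mul_le_mul (mul_le_mul_of_nonneg_left h1 hd.le) hLL hL'0.le (mul_nonneg hd.le h0)
        _ = 2 * (dep S k * num r S k * L) := by ring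
        _ ≤ 2 * (c * r) := mul_le_mul_of_nonneg_left hN (by norm_num)
        _ = 2 * c * r := by ring
        _ ≤ c1 * (r / 2) := hcc
    · right
      have h1 : num (r / 2) S k ≤ CJ * (len S k ^ 2 * E) := by
        unfold num
        have h2 : ∑ ρ ∈ S, |(k ρ : ℝ)| * (zc (r / 2) ρ.im : ℝ) ≤
            ∑ ρ ∈ S, |(k ρ : ℝ)| * (CJ * E) :=
          Finset.sum_le_sum fun ρ hρ => mul_le_mul_of_nonneg_left
            (hjen r E ρ.im hr hr1 hE (hS ρ hρ).2.1 (hS ρ hρ).2.2) (abs_nonneg _)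
        rw [← Finset.sum_mul] at h2
        have h3 : ∑ ρ ∈ S, |(k ρ : ℝ)| = len S k := rfl
        rw [h3] at h2
        calc len S k * ∑ ρ ∈ S, |(k ρ : ℝ)| * (zc (r / 2) ρ.im : ℝ) ≤
              len S k * (len S k * (CJ * E)) := mul_le_mul_of_nonneg_left h2 (len_nonneg S k)
          _ = CJ * (len S k ^ 2 * E) := by ring
      have h0 : 0 ≤ CJ * (len S k ^ 2 * E) := by positivity
      calc dep S k * num (r / 2) S k * L' ≤ dep S k * (CJ * (len S k ^ 2 * E)) * (2 * L) :=
            mul_le_mul (mul_le_mul_of_nonneg_left h1 hd.le) hLL hL'0.le (mul_nonneg hd.le h0)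
        _ = CJ * 2 * (dep S k * (len S k ^ 2 * E) * L) := by ring
        _ ≤ CJ * 2 * (c * r) := mul_le_mul_of_nonneg_left hN (by positivity)
        _ = CJ * (2 * c) * r := by ring
        _ ≤ c1 * (r / 2) := hcJ
  have hmain := hcore (r / 2) (E + 1) S k hr2 (by linarith) hE2 hS2 hd hd2 hN2
  rw [pe_Dk (by positivity)] at hmain
  refine ⟨?_, hmain⟩
  have h1 : dep S k * 1 ≤ dep S k * L := mul_le_mul_of_nonneg_left hL1 hd.le
  linarith

end Pool.Agent.H76.LP
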