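import Mathlib
import Pool.Agent.H76.LP.PriE
import Pool.Agent.H76.LP.NV

/-!
# Vir: combinations of ordinates obey the Vinogradov-Korobov bound

PROOF: `dep = 0`: as in `localLattice` (`dep_zero`).  `0 < dep`: `b = 32 dep ≤ 32 c r ≤ 1`, `t = comb S k`, `σ = sg S k = ±1`.
`priE`: `5/(8b) ≤ -σ Re ζ'/ζ(pt b t)`; `nv`: `-Re ζ'/ζ(pt b t) = Re (1/(b + ti)) + error`, `|error| ≤ C1 vklam |t|`,
`C1 vklam |t| ≤ C1 c/dep = 32 C1 c/b ≤ 1/(8b)`.  So `1/(2b) ≤ σ Re (1/(b+ti)) = σ b/(b² + t²)`: `σ = 1` (`Even`: if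
`∑ k` is odd then `sg = -1`, `Odd.neg_one_zpow`) and `b² + t² ≤ 2 b²`, `|t| ≤ b = 32 dep`.  About 100 lines.
-/

set_option autoImplicit false

open Complex

namespace Pool.Agent.H76.LP

open Pool.Agent.H76.CR Pool.Agent.H76.RP Pool.Agent.H76.GS Pool.Agent.H76.GL Pool.Agent.H52.ZR

/-- the real part of `1 / (b + t i)` -/
private lemma re_inv (b t : ℝ) : (1 / ((b : ℂ) + t * I)).re = b / (b ^ 2 + t ^ 2) := by
  rw [one_div, Complex.inv_re, Complex.normSq_apply]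
  simp only [add_re, ofReal_re, mul_re, I_re, mul_zero, ofReal_im, I_im, mul_one, sub_self,
    add_zero, add_im, mul_im, zero_add]
  congr 1
  ring

theorem vir : ∃ c C : ℝ, 0 < c ∧ 1 ≤ C ∧ ∀ (r E : ℝ) (S : Finset ℂ) (k : ℂ → ℤ), 0 < r → r ≤ 1 →
    1 + Real.log (1 / r) ≤ E →
    (∀ ρ ∈ S, riemannZeta ρ = 0 ∧ 1 ≤ |ρ.im| ∧ Tame r E ρ.im) →
    dep S k * LL E S k ≤ c * r →
    ((∀ ρ ∈ S, zc r ρ.im ≤ 1) ∨ dep S k * num r S k * LL E S k ≤ c * r ∨
      dep S k * (len S k ^ 2 * E) * LL E S k ≤ c * r) →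
    dep S k * vklam |comb S k| ≤ c → Even (∑ ρ ∈ S, k ρ) ∧ |comb S k| ≤ C * dep S k := by
  obtain ⟨c0, hc0, hc032, hpri⟩ := priE
  obtain ⟨C1, hC1, hnv⟩ := nv
  have hC10 : 0 < C1 := by linarith
  set c : ℝ := min c0 (1 / (256 * C1)) with hc
  have hcpos : 0 < c := lt_min hc0 (by positivity)
  have m1 : c ≤ c0 := min_le_left _ _
  have m2 : c ≤ 1 / (256 * C1) := min_le_right _ _
  refine ⟨c, 32, hcpos, by norm_num, ?_⟩
  intro r E S k hr hr1 hE hS hdL hN hV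
  have hSz : ∀ ρ ∈ S, riemannZeta ρ = 0 := fun ρ hρ => (hS ρ hρ).1
  rcases le_or_gt (dep S k) 0 with hd | hd
  · have hk := dep_zero hSz hd
    have h1 : ∑ ρ ∈ S, k ρ = 0 := Finset.sum_eq_zero hk
    have h2 : comb S k = 0 := by
      unfold comb
      refine Finset.sum_eq_zero fun ρ hρ => ?_
      rw [hk ρ hρ]
      simp
    have h3 : dep S k = 0 := by
      unfold dep len
      rw [Finset.sum_eq_zero (fun ρ hρ => by rw [hk ρ hρ]; simp), zero_mul]
    refine ⟨?_, ?_⟩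
    · rw [h1]
      exact Even.zero
    · rw [h2, h3]
      simp
  have hcr : c * r ≤ c0 * r := mul_le_mul_of_nonneg_right m1 hr.le
  have hN' : ((∀ ρ ∈ S, zc r ρ.im ≤ 1) ∨ dep S k * num r S k * LL E S k ≤ c0 * r ∨
      dep S k * (len S k ^ 2 * E) * LL E S k ≤ c0 * r) := by
    rcases hN with h | h | h
    · exact Or.inl h
    · exact Or.inr (Or.inl (h.trans hcr))
    · exact Or.inr (Or.inr (h.trans hcr))
  obtain ⟨hd1, hmain⟩ := hpri r E S k hr hr1 hE hS hd (hdL.trans hcr) hN'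
  set b : ℝ := 32 * dep S k with hb
  set t : ℝ := comb S k with ht
  have hb0 : 0 < b := by positivity
  have hb1 : b ≤ 1 := by
    have : c0 * r ≤ 1 / 32 := by nlinarith
    rw [hb]
    linarith
  have h1 := hnv b t hb0 hb1
  have h2 : |(deriv riemannZeta (pt b t) / riemannZeta (pt b t)).re + b / (b ^ 2 + t ^ 2)| ≤
      C1 * vklam |t| := by
    have h3 := (Complex.abs_re_le_norm _).trans h1
    rw [add_re, re_inv] at h3
    exact h3
  have hV1 : C1 * vklam |t| ≤ 1 / (8 * b) := by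
    have e1 : dep S k * vklam |t| ≤ 1 / (256 * C1) := hV.trans m2
    rw [le_div_iff₀ (by positivity)] at e1
    rw [le_div_iff₀ (by positivity), hb]
    nlinarith
  set X : ℝ := (deriv riemannZeta (pt b t) / riemannZeta (pt b t)).re with hX
  have h3 := abs_le.1 (h2.trans hV1)
  have hbt : 0 < b ^ 2 + t ^ 2 := by positivity
  have hq : 0 < b / (b ^ 2 + t ^ 2) := by positivity
  have h58 : 5 / 8 / b = 5 * (1 / (8 * b)) := by
    field_simp
  have h8 : 0 < 1 / (8 * b) := by positivity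
  rcases Int.even_or_odd (∑ ρ ∈ S, k ρ) with hev | hod
  · have hs : sg S k = 1 := by
      unfold sg
      exact hev.neg_one_zpow
    rw [hs, one_mul, h58] at hmain
    refine ⟨hev, ?_⟩
    have h4 : 4 * (1 / (8 * b)) ≤ b / (b ^ 2 + t ^ 2) := by linarith [h3.1]
    have h5 : 4 * (1 / (8 * b)) = 1 / (2 * b) := by
      field_simp
      norm_num
    rw [h5, div_le_div_iff₀ (by positivity) hbt] at h4
    have h6 : t ^ 2 ≤ b ^ 2 := by nlinarith
    exact abs_le_of_sq_le_sq h6 hb0.le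
  · exfalso
    have hs : sg S k = -1 := by
      unfold sg
      exact hod.neg_one_zpow
    rw [hs, h58] at hmain
    have h4 : X ≤ 1 / (8 * b) - b / (b ^ 2 + t ^ 2) := by linarith [h3.2]
    nlinarith

end Pool.Agent.H76.LP
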