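import Mathlib
import Pool.Agent.H76.GL.TameR

/-!
# Psi: the unconditional tameness, all radii and heights

PROOF of `ricU`: `tameR` (constant `C1 ≥ 1`) with `T' = T + C1 + 1 ≥ C1`, `|t| ≤ T'`: `Tame r E0 t`,
`E0 = C1 (r^(3/2) log T' + loglog T' + log (1/r))`; take `E = max E0 (1 + log (1/r))` (`Tame.mono`).
`T' ≤ (T + 3)(C1 + 1)`, `1 ≤ log (T + 3)`: `log T' ≤ (1 + log (C1 + 1)) log (T + 3)` and
`loglog T' ≤ loglog (T + 3) + log (1 + log (C1 + 1))` (if `log T' ≤ 0`.. it is not: `T' ≥ 2`; if `loglog T' < 0` fine).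
So `2 + E ≤ C2 (2 + r^(3/2) log (T+3) + loglog (T+3) + log (1/r))`, `log (2 + E) ≤ log C2 + psi ≤ (1 + 2 log C2) psi`
(`psi ≥ log 2 ≥ 1/2`).  About 90 lines.
-/

set_option autoImplicit false

open Complex

namespace Pool.Agent.H76.LP

open Pool.Agent.H76.CR Pool.Agent.H76.GL

/-- `log (2 + r^(3/2) log (T + 3) + loglog (T + 3) + log (1/r))` -/
noncomputable def psi (r T : ℝ) : ℝ :=
  Real.log (2 + r ^ (3 / 2 : ℝ) * Real.log (T + 3) + Real.log (Real.log (T + 3)) + Real.log (1 / r))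

private theorem one_le_log_three {T : ℝ} (hT : 0 ≤ T) : 1 ≤ Real.log (T + 3) := by
  rw [Real.le_log_iff_exp_le (by linarith)]
  have := Real.exp_one_lt_d9
  linarith

private theorem two_le_arg {r T : ℝ} (hr : 0 < r) (hr1 : r ≤ 1) (hT : 0 ≤ T) :
    2 + Real.log (1 / r) ≤ 2 + r ^ (3 / 2 : ℝ) * Real.log (T + 3) + Real.log (Real.log (T + 3)) +
      Real.log (1 / r) ∧ 0 ≤ Real.log (1 / r) := by
  have hL := one_le_log_three hT
  have ha : 0 ≤ r ^ (3 / 2 : ℝ) := Real.rpow_nonneg hr.le _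
  have hll : 0 ≤ Real.log (Real.log (T + 3)) := Real.log_nonneg hL
  have hZ : 0 ≤ Real.log (1 / r) := Real.log_nonneg (by rw [le_div_iff₀ hr]; linarith)
  have : 0 ≤ r ^ (3 / 2 : ℝ) * Real.log (T + 3) := by positivity
  exact ⟨by linarith, hZ⟩

private theorem half_le_psi {r T : ℝ} (hr : 0 < r) (hr1 : r ≤ 1) (hT : 0 ≤ T) : 1 / 2 ≤ psi r T := by
  obtain ⟨h1, h2⟩ := two_le_arg hr hr1 hT
  unfold psi
  calc (1 / 2 : ℝ) ≤ Real.log 2 := by have := Real.log_two_gt_d9; linarith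
    _ ≤ _ := Real.log_le_log (by norm_num) (by linarith)

theorem ricU : ∃ C : ℝ, 1 ≤ C ∧ ∀ r T t : ℝ, 0 < r → r ≤ 1 / 4 → 0 ≤ T → 2 * r ≤ |t| → |t| ≤ T →
    ∃ E : ℝ, 1 + Real.log (1 / r) ≤ E ∧ Real.log (2 + E) ≤ C * psi r T ∧ Tame r E t := by
  obtain ⟨C1, hC1, h⟩ := tameR
  have hK : 0 ≤ Real.log (C1 + 1) := Real.log_nonneg (by linarith)
  set M : ℝ := 1 + Real.log (C1 + 1) with hM
  have hM1 : 1 ≤ M := by linarith
  have hC1M : 1 ≤ C1 * M := by nlinarith
  set C2 : ℝ := 1 + C1 * M with hC2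
  have hC22 : 2 ≤ C2 := by linarith
  have hlC2 : 0 ≤ Real.log C2 := Real.log_nonneg (by linarith)
  refine ⟨1 + 2 * Real.log C2, by linarith, ?_⟩
  intro r T t hr hr4 hT ht2 htT
  have hL := one_le_log_three hT
  obtain ⟨hS1, hZ0⟩ := two_le_arg hr (by linarith : r ≤ 1) hT
  have hpsi := half_le_psi hr (by linarith : r ≤ 1) hT
  have ha : 0 ≤ r ^ (3 / 2 : ℝ) := Real.rpow_nonneg hr.le _
  have hll : 0 ≤ Real.log (Real.log (T + 3)) := Real.log_nonneg hL
  have hT' := h r (T + C1 + 1) t hr hr4 (by linarith) ht2 (by linarith)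
  set E0 : ℝ := C1 * (r ^ (3 / 2 : ℝ) * Real.log (T + C1 + 1) + Real.log (Real.log (T + C1 + 1)) +
    Real.log (1 / r)) with hE0
  refine ⟨max E0 (1 + Real.log (1 / r)), le_max_right _ _, ?_, hT'.mono (le_max_left _ _)⟩
  have hpos : 0 < T + C1 + 1 := by linarith
  have hlT' : Real.log (T + C1 + 1) ≤ M * Real.log (T + 3) := by
    have h1 : T + C1 + 1 ≤ (T + 3) * (C1 + 1) := by nlinarith
    calc Real.log (T + C1 + 1) ≤ Real.log ((T + 3) * (C1 + 1)) := Real.log_le_log hpos h1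
      _ = Real.log (T + 3) + Real.log (C1 + 1) :=
          Real.log_mul (by linarith) (by linarith)
      _ ≤ M * Real.log (T + 3) := by rw [hM]; nlinarith
  have hlT'0 : 0 < Real.log (T + C1 + 1) := Real.log_pos (by linarith)
  have hll' : Real.log (Real.log (T + C1 + 1)) ≤ M + Real.log (Real.log (T + 3)) := by
    calc Real.log (Real.log (T + C1 + 1)) ≤ Real.log (M * Real.log (T + 3)) :=
          Real.log_le_log hlT'0 hlT'
      _ = Real.log M + Real.log (Real.log (T + 3)) := Real.log_mul (by linarith) (by linarith)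
      _ ≤ M + Real.log (Real.log (T + 3)) := by
          have := Real.log_le_sub_one_of_pos (by linarith : 0 < M)
          linarith
  set S : ℝ := 2 + r ^ (3 / 2 : ℝ) * Real.log (T + 3) + Real.log (Real.log (T + 3)) +
      Real.log (1 / r) with hS
  have hS2 : 2 ≤ S := by linarith
  have hE0S : E0 ≤ C1 * (M * S) := by
    rw [hE0]
    apply mul_le_mul_of_nonneg_left _ (by linarith)
    have e1 : r ^ (3 / 2 : ℝ) * Real.log (T + C1 + 1) ≤ M * (r ^ (3 / 2 : ℝ) * Real.log (T + 3)) := by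
      calc r ^ (3 / 2 : ℝ) * Real.log (T + C1 + 1) ≤ r ^ (3 / 2 : ℝ) * (M * Real.log (T + 3)) :=
            mul_le_mul_of_nonneg_left hlT' ha
        _ = _ := by ring
    have e2 : Real.log (Real.log (T + 3)) ≤ M * Real.log (Real.log (T + 3)) := by nlinarith
    have e3 : Real.log (1 / r) ≤ M * Real.log (1 / r) := by nlinarith
    have e4 : M * S = M * 2 + M * (r ^ (3 / 2 : ℝ) * Real.log (T + 3)) +
      M * Real.log (Real.log (T + 3)) + M * Real.log (1 / r) := by rw [hS]; ring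
    rw [e4]; linarith
  have hE : 2 + max E0 (1 + Real.log (1 / r)) ≤ C2 * S := by
    rcases max_cases E0 (1 + Real.log (1 / r)) with ⟨h1, _⟩ | ⟨h1, _⟩
    · rw [h1, hC2]
      nlinarith
    · rw [h1]
      nlinarith
  have hEpos : 0 < 2 + max E0 (1 + Real.log (1 / r)) := by
    have := le_max_right E0 (1 + Real.log (1 / r)); linarith
  have hpsiS : psi r T = Real.log S := rfl
  calc Real.log (2 + max E0 (1 + Real.log (1 / r))) ≤ Real.log (C2 * S) := Real.log_le_log hEpos hE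
    _ = Real.log C2 + psi r T := by
        rw [hpsiS]; exact Real.log_mul (by linarith) (by linarith)
    _ ≤ (1 + 2 * Real.log C2) * psi r T := by nlinarith

/-- `psi` and halving the radius -/
theorem psi_half {r T : ℝ} (hr : 0 < r) (hr1 : r ≤ 1) (hT : 0 ≤ T) :
    1 / 2 ≤ psi r T ∧ psi (r / 2) T ≤ 2 * psi r T := by
  refine ⟨half_le_psi hr hr1 hT, ?_⟩
  have hL := one_le_log_three hT
  obtain ⟨hS1, hZ0⟩ := two_le_arg hr hr1 hT
  obtain ⟨hS1', hZ0'⟩ := two_le_arg (by linarith : 0 < r / 2) (by linarith : r / 2 ≤ 1) hT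
  unfold psi
  set S : ℝ := 2 + r ^ (3 / 2 : ℝ) * Real.log (T + 3) + Real.log (Real.log (T + 3)) +
      Real.log (1 / r) with hS
  have hS2 : 2 ≤ S := by linarith
  have h1 : (r / 2) ^ (3 / 2 : ℝ) * Real.log (T + 3) ≤ r ^ (3 / 2 : ℝ) * Real.log (T + 3) :=
    mul_le_mul_of_nonneg_right (Real.rpow_le_rpow (by linarith) (by linarith) (by norm_num))
      (by linarith)
  have h2 : Real.log (1 / (r / 2)) = Real.log 2 + Real.log (1 / r) := by
    rw [show 1 / (r / 2) = 2 * (1 / r) by field_simp]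
    exact Real.log_mul (by norm_num) (by positivity)
  have h3 : Real.log 2 ≤ 1 := by have := Real.log_two_lt_d9; linarith
  have h4 : 2 + (r / 2) ^ (3 / 2 : ℝ) * Real.log (T + 3) + Real.log (Real.log (T + 3)) +
      Real.log (1 / (r / 2)) ≤ S ^ 2 := by
    rw [h2]
    nlinarith
  calc Real.log (2 + (r / 2) ^ (3 / 2 : ℝ) * Real.log (T + 3) + Real.log (Real.log (T + 3)) +
      Real.log (1 / (r / 2))) ≤ Real.log (S ^ 2) := Real.log_le_log (by linarith) h4
    _ = 2 * Real.log S := by rw [Real.log_pow]; norm_num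

end Pool.Agent.H76.LP
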