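import Mathlib
import Pool.Agent.H76.LP.Vir
import Pool.Agent.H76.LP.Psi

/-!
# LPage: two zeros near the line `Re s = 1`

PROOF: if `ρ = ρ'` the first alternative holds.  Otherwise `ricU` with `r`, `T` at `t = Im ρ` and `t = Im ρ'`
(`2 r ≤ 1/2 ≤ |t|`): `E1`, `E2`; `E = max E1 E2` (`Tame.mono`), `log (2 + E) ≤ C1 psi r T`.  The finset `{ρ, ρ'}`,
`k = fun u => if u = ρ then 1 else if u = ρ' then -1 else 0`: `∑ k = 0`, `comb = Im ρ - Im ρ'`, `len = 2`,
`dep = 2 ((1 - Re ρ) + (1 - Re ρ')) ≤ 4 d`, `num r = 2 (n + n')`, `LL = log (2 (2+E)) ≤ 2 log (2+E) ≤ 2 C1 psi`: so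
`dep LL ≤ 8 C1 d psi ≤ c r`, `dep num LL ≤ 16 C1 d psi (n + n') ≤ c r` for `C` large: second alternative of `vir`.
If `d vklam |Im ρ - Im ρ'| < c'` then `dep vklam ≤ 4 c'`, so `|Im ρ - Im ρ'| ≤ C dep ≤ 4 C d`.  About 120 lines.
Second part: `n + n' ≤ 2`, `3 C d psi ≤ r` (constant), the first alternative `|Im ρ - Im ρ'| ≤ C d` would put both
`ρ`, `ρ'` into `disc r (Im ρ)` (`‖ρ' - (1 + i Im ρ)‖ ≤ d + C d < r`, as `psi ≥ 1/2`), so `zc r (Im ρ) ≥ 2` (`zc_ge`
with `{ρ, ρ'}`, `ord_pos`), contradiction.  About 60 lines more.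
-/

set_option autoImplicit false

open Complex

namespace Pool.Agent.H76.LP

open Pool.Agent.H76.CR Pool.Agent.H76.RP Pool.Agent.H76.GS Pool.Agent.H76.GL Pool.Agent.H52.ZR

private theorem LPage_first : ∃ c C : ℝ, 0 < c ∧ 1 ≤ C ∧ ∀ (T d r : ℝ) (ρ ρ' : ℂ), 1 ≤ T → 0 < d → r ≤ 1 / 4 →
    riemannZeta ρ = 0 → riemannZeta ρ' = 0 → 1 - d ≤ ρ.re → 1 - d ≤ ρ'.re →
    1 ≤ |ρ.im| → |ρ.im| ≤ T → 1 ≤ |ρ'.im| → |ρ'.im| ≤ T → 0 < r → ρ ≠ ρ' →
    C * d * psi r T * (1 + zc r ρ.im + zc r ρ'.im) ≤ r →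
      |ρ.im - ρ'.im| ≤ C * d ∨ c ≤ d * vklam |ρ.im - ρ'.im| := by
  obtain ⟨cv, Cv, hcv, hCv, hvir⟩ := vir
  obtain ⟨C1, hC1, hric⟩ := ricU
  set C : ℝ := 16 * C1 / cv + 4 * Cv with hC
  have hq : 0 < 16 * C1 / cv := by positivity
  refine ⟨cv / 4, C, by positivity, by linarith, ?_⟩
  intro T d r ρ ρ' hT hd hr4 hz hz' hre hre' him1 himT him1' himT' hr hne hK
  obtain ⟨E1, hE1a, hE1b, hE1c⟩ := hric r T ρ.im hr hr4 (by linarith) (by linarith) himT
  obtain ⟨E2, hE2a, hE2b, hE2c⟩ := hric r T ρ'.im hr hr4 (by linarith) (by linarith) himT'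
  obtain ⟨hpsi, -⟩ := psi_half hr (by linarith : r ≤ 1) (by linarith : (0 : ℝ) ≤ T)
  set P : ℝ := psi r T with hP
  set n : ℝ := (zc r ρ.im : ℝ) with hn
  set n' : ℝ := (zc r ρ'.im : ℝ) with hn'
  have hn0 : 0 ≤ n := Nat.cast_nonneg _
  have hn0' : 0 ≤ n' := Nat.cast_nonneg _
  set E : ℝ := max E1 E2 with hE
  have hlr : 0 ≤ Real.log (1 / r) := Real.log_nonneg (by
    rw [le_div_iff₀ hr]
    linarith)
  have hEa : 1 + Real.log (1 / r) ≤ E := hE1a.trans (le_max_left _ _)
  have hE1 : 1 ≤ E := by linarith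
  have hEb : Real.log (2 + E) ≤ C1 * P := by
    rcases max_choice E1 E2 with h | h
    · rw [hE, h]; exact hE1b
    · rw [hE, h]; exact hE2b
  have hlogE : 0 ≤ Real.log (2 + E) := Real.log_nonneg (by linarith)
  set S : Finset ℂ := {ρ, ρ'} with hS
  set k : ℂ → ℤ := fun u => if u = ρ then 1 else if u = ρ' then -1 else 0 with hk
  have hkρ : k ρ = 1 := by simp [hk]
  have hkρ' : k ρ' = -1 := by
    have : ¬ (ρ' = ρ) := fun h => hne h.symm
    simp [hk, this]
  have hlen : len S k = 2 := by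
    unfold len
    rw [hS, Finset.sum_pair hne, hkρ, hkρ']
    norm_num
  have hcomb : comb S k = ρ.im - ρ'.im := by
    unfold comb
    rw [hS, Finset.sum_pair hne, hkρ, hkρ']
    push_cast
    ring
  have hdep : dep S k = 2 * ((1 - ρ.re) + (1 - ρ'.re)) := by
    unfold dep
    rw [hlen, hS, Finset.sum_pair hne, hkρ, hkρ']
    norm_num
  have hnum : num r S k = 2 * (n + n') := by
    unfold num
    rw [hlen, hS, Finset.sum_pair hne, hkρ, hkρ']
    norm_num [hn, hn']
  have hρ1 := re_lt_one hz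
  have hρ1' := re_lt_one hz'
  have hdep0 : 0 ≤ dep S k := by rw [hdep]; linarith
  have hdep4 : dep S k ≤ 4 * d := by rw [hdep]; linarith
  have hLL : LL E S k ≤ 2 * (C1 * P) := by
    unfold LL
    rw [hlen, Real.log_mul (by linarith) (by norm_num)]
    have : Real.log 2 ≤ Real.log (2 + E) := Real.log_le_log (by norm_num) (by linarith)
    linarith
  have hLL0 : 0 ≤ LL E S k := by
    unfold LL
    rw [hlen]
    exact Real.log_nonneg (by linarith)
  have hP0 : 0 < P := by linarith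
  have hCq : 16 * C1 / cv ≤ C := by
    rw [hC]
    linarith
  -- the condition with the constant `16 C1 / cv`
  have hK1 : 16 * C1 * (d * P * (1 + n + n')) ≤ cv * r := by
    have h1 : 16 * C1 / cv * (d * P * (1 + n + n')) ≤ r := by
      refine le_trans ?_ hK
      have h2 : 0 ≤ d * P * (1 + n + n') := by positivity
      have h3 := mul_le_mul_of_nonneg_right hCq h2
      have h4 : C * (d * P * (1 + n + n')) = C * d * P * (1 + n + n') := by ring
      linarith
    rw [div_mul_eq_mul_div, div_le_iff₀ hcv] at h1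
    linarith
  have hdP : 0 ≤ d * P := by positivity
  have hdPn : 0 ≤ d * P * (n + n') := by positivity
  have hA : dep S k * LL E S k ≤ cv * r := by
    calc dep S k * LL E S k ≤ (4 * d) * (2 * (C1 * P)) :=
          mul_le_mul hdep4 hLL hLL0 (by positivity)
      _ = 8 * C1 * (d * P) := by ring
      _ ≤ 16 * C1 * (d * P * (1 + n + n')) := by
          have h1 : 16 * C1 * (d * P * (1 + n + n')) = 16 * C1 * (d * P) + 16 * C1 * (d * P * (n + n')) := by
            ring
          have h2 : 0 ≤ 16 * C1 * (d * P * (n + n')) := by positivity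
          have h3 : 0 ≤ 8 * C1 * (d * P) := by positivity
          linarith
      _ ≤ cv * r := hK1
  have hB : dep S k * num r S k * LL E S k ≤ cv * r := by
    calc dep S k * num r S k * LL E S k ≤ ((4 * d) * (2 * (n + n'))) * (2 * (C1 * P)) := by
          refine mul_le_mul ?_ hLL hLL0 (by positivity)
          rw [hnum]
          exact mul_le_mul_of_nonneg_right hdep4 (by positivity)
      _ = 16 * C1 * (d * P * (n + n')) := by ring
      _ ≤ 16 * C1 * (d * P * (1 + n + n')) := by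
          have h1 : 16 * C1 * (d * P * (1 + n + n')) = 16 * C1 * (d * P) + 16 * C1 * (d * P * (n + n')) := by
            ring
          have h3 : 0 ≤ 16 * C1 * (d * P) := by positivity
          linarith
      _ ≤ cv * r := hK1
  have hmain := hvir r E S k hr (by linarith) hEa (by
    intro u hu
    rw [hS, Finset.mem_insert, Finset.mem_singleton] at hu
    rcases hu with rfl | rfl
    · exact ⟨hz, him1, hE1c.mono (le_max_left _ _)⟩
    · exact ⟨hz', him1', hE2c.mono (le_max_right _ _)⟩) hA (Or.inr (Or.inl hB))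
  rw [hcomb] at hmain
  rcases lt_or_ge (d * vklam |ρ.im - ρ'.im|) (cv / 4) with h | h
  · left
    have hv : 0 ≤ vklam |ρ.im - ρ'.im| := by
      have := vklam_ge (abs_nonneg (ρ.im - ρ'.im))
      linarith
    have h1 : dep S k * vklam |ρ.im - ρ'.im| ≤ cv := by
      have h2 := mul_le_mul_of_nonneg_right hdep4 hv
      linarith
    have h3 := (hmain h1).2
    have h4 : Cv * dep S k ≤ Cv * (4 * d) := mul_le_mul_of_nonneg_left hdep4 (by linarith)
    have h5 : 4 * Cv * d ≤ C * d := by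
      refine mul_le_mul_of_nonneg_right ?_ hd.le
      rw [hC]
      linarith
    linarith
  · right
    exact h

theorem lpage : ∃ c C : ℝ, 0 < c ∧ 1 ≤ C ∧ ∀ (T d r : ℝ) (ρ ρ' : ℂ), 1 ≤ T → 0 < d → r ≤ 1 / 4 →
    riemannZeta ρ = 0 → riemannZeta ρ' = 0 → 1 - d ≤ ρ.re → 1 - d ≤ ρ'.re →
    1 ≤ |ρ.im| → |ρ.im| ≤ T → 1 ≤ |ρ'.im| → |ρ'.im| ≤ T → 0 < r →
    (C * d * psi r T * (1 + zc r ρ.im + zc r ρ'.im) ≤ r →
      |ρ.im - ρ'.im| ≤ C * d ∨ c ≤ d * vklam |ρ.im - ρ'.im|) ∧
    (C * d * psi r T ≤ r → zc r ρ.im ≤ 1 → zc r ρ'.im ≤ 1 → ρ ≠ ρ' →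
      c ≤ d * vklam |ρ.im - ρ'.im|) := by
  obtain ⟨c, C0, hc, hC0, hfirst⟩ := LPage_first
  refine ⟨c, 4 * C0 + 4, hc, by linarith, ?_⟩
  intro T d r ρ ρ' hT hd hr4 hz hz' hre hre' him1 himT him1' himT' hr
  obtain ⟨hpsi, -⟩ := psi_half hr (by linarith : r ≤ 1) (by linarith : (0 : ℝ) ≤ T)
  have hP0 : 0 < psi r T := by linarith
  have hn0 : (0 : ℝ) ≤ (zc r ρ.im : ℝ) := Nat.cast_nonneg _
  have hn0' : (0 : ℝ) ≤ (zc r ρ'.im : ℝ) := Nat.cast_nonneg _
  have hcase : ρ ≠ ρ' → C0 * d * psi r T * (1 + zc r ρ.im + zc r ρ'.im) ≤ r →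
      |ρ.im - ρ'.im| ≤ C0 * d ∨ c ≤ d * vklam |ρ.im - ρ'.im| := fun hne h =>
    hfirst T d r ρ ρ' hT hd hr4 hz hz' hre hre' him1 himT him1' himT' hr hne h
  constructor
  · intro hK
    rcases eq_or_ne ρ ρ' with rfl | hne
    · left
      rw [sub_self, abs_zero]
      positivity
    · have h1 : C0 * d * psi r T * (1 + zc r ρ.im + zc r ρ'.im) ≤ r := by
        refine le_trans ?_ hK
        refine mul_le_mul_of_nonneg_right ?_ (by positivity)
        refine mul_le_mul_of_nonneg_right ?_ hP0.le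
        refine mul_le_mul_of_nonneg_right ?_ hd.le
        linarith
      rcases hcase hne h1 with h | h
      · left
        have h2 : C0 * d ≤ (4 * C0 + 4) * d := mul_le_mul_of_nonneg_right (by linarith) hd.le
        linarith
      · right
        exact h
  · intro hK hone hone' hne
    have hn1 : (zc r ρ.im : ℝ) ≤ 1 := by exact_mod_cast hone
    have hn1' : (zc r ρ'.im : ℝ) ≤ 1 := by exact_mod_cast hone'
    have hdP : 0 < d * psi r T := by positivity
    have h1 : C0 * d * psi r T * (1 + zc r ρ.im + zc r ρ'.im) ≤ r := by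
      have h2 : C0 * d * psi r T * (1 + zc r ρ.im + zc r ρ'.im) ≤ C0 * d * psi r T * 3 :=
        mul_le_mul_of_nonneg_left (by linarith) (by positivity)
      have h3 : C0 * d * psi r T * 3 = 3 * (C0 * (d * psi r T)) := by ring
      have h4 : (4 * C0 + 4) * d * psi r T = 4 * (C0 * (d * psi r T)) + 4 * (d * psi r T) := by ring
      have h5 : 0 < C0 * (d * psi r T) := by positivity
      linarith
    rcases hcase hne h1 with h | h
    · exfalso
      -- both zeros lie in the disc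
      have hdhalf : (4 * C0 + 4) * d * (1 / 2) ≤ r := by
        refine le_trans ?_ hK
        exact mul_le_mul_of_nonneg_left hpsi (by positivity)
      have hdr : d + C0 * d < r := by
        have h2 : (4 * C0 + 4) * d * (1 / 2) = 2 * (C0 * d) + 2 * d := by ring
        have h3 : 0 < C0 * d := by positivity
        linarith
      have hC0d : 0 < C0 * d := by positivity
      have hρ1 := re_lt_one hz
      have hρ1' := re_lt_one hz'
      have hm : ρ ∈ disc r ρ.im := by
        refine ⟨hz, ?_⟩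
        have h2 : ρ - (1 + ρ.im * I) = ((ρ.re - 1 : ℝ) : ℂ) := by
          apply Complex.ext <;> simp
        rw [h2, Complex.norm_real, Real.norm_eq_abs, abs_lt]
        constructor <;> linarith
      have hm' : ρ' ∈ disc r ρ.im := by
        refine ⟨hz', ?_⟩
        have h2 : ρ' - (1 + ρ.im * I) = ((ρ'.re - 1 : ℝ) : ℂ) + ((ρ'.im - ρ.im : ℝ) : ℂ) * I := by
          apply Complex.ext <;> simp
        rw [h2]
        refine lt_of_le_of_lt (norm_add_le _ _) ?_
        rw [norm_mul, Complex.norm_I, mul_one, Complex.norm_real, Complex.norm_real,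
          Real.norm_eq_abs, Real.norm_eq_abs, abs_sub_comm ρ'.im ρ.im]
        have h3 : |ρ'.re - 1| ≤ d := by
          rw [abs_le]
          constructor <;> linarith
        linarith
      have h2 := zc_ge (by linarith : r ≤ 1) ρ.im {ρ, ρ'} (by
        intro u hu
        rw [Finset.mem_insert, Finset.mem_singleton] at hu
        rcases hu with rfl | rfl
        · exact hm
        · exact hm')
      rw [Finset.sum_pair hne] at h2
      have h3 := ord_pos hz
      have h4 := ord_pos hz'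
      omega
    · exact h

end Pool.Agent.H76.LP
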