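import Mathlib
import Pool.Agent.H76.LP.Vir
import Pool.Agent.H76.LP.Own
import Pool.Agent.H76.LP.Psi
import Pool.Agent.H76.LF.Box

/-!
# LawP: all but few zeros in a window are uncrowded, and pairs of uncrowded zeros

PROOF.  `L = psi r (T+H)`.  `ricU` with the radius `r/2` and `T + H`: every `t` with `r ≤ |t| ≤ T + H` is tame for
the radius `r/2` with some `E = E(t)`, `1 + log (2/r) ≤ E`, `log (2 + E) ≤ C1 psi (r/2) (T+H) ≤ 2 C1 L` (`psi_half`), and
by `Tame.mono` one common `E` with these properties (`E = exp (2 C1 L) - 2`; see `htame` in `LF/Law.lean`); note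
`r ≤ 1/4 < 1 ≤ T ≤ Im ρ`.  `c' > 0` small.  If `x L > c' r`: `S1 = ∅`, `|S| ≤ zwin r (T-1) (T+H+1)` (`card_le_win`).
Otherwise `S1` = the `ρ ∈ S` with `zc (r/2) (Im ρ) x L ≤ c' r`; `|S \ S1| c' r/(x L) ≤ ∑_(ρ ∈ S \ S1) zc (r/2) (Im ρ) ≤
zwin r (T-1) (T+H+1)` (private lemma `lw_box` in `LF/Law.lean`, copy).  Pairs `ρ ≠ ρ'` in `S1`: the finset `{ρ, ρ'}`,
`k = fun u => if u = ρ then 1 else if u = ρ' then -1 else 0`: `∑ k = 0` (even, `sg = 1`), `comb = Im ρ - Im ρ' =: t`,
`len = 2`, `0 < D = dep = 2 ((1 - Re ρ) + (1 - Re ρ')) ≤ 4x`, `num = 2 (n + n')`, `LL = log (2 (2+E)) ≤ 2 log (2+E)`: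
the second alternative of `vir`, `priE` holds at the radius `r/2` (`D LL ≤ 16 C1 x L`, `D num LL ≤ 64 C1 c' r`, all
small).  First claim: `D vklam |t| ≤ 4 x vklam |t| ≤ 4 c`, so `vir` gives `r ≤ |t| ≤ C D ≤ 4 C x ≤ 8 C c' r < r`
(`1/2 ≤ L`), contradiction.  Second claim: `priE` and `own` (1) with `d = D` (`D log (2+E') ≤ 4 x log (2+E') ≤ 4 c r'`):
`c r'/(x log (2+E')) ≤ 4 c r'/(D log (2+E')) ≤ zc r' t`.  About 250 lines.
-/

set_option autoImplicit false

open Complex

namespace Pool.Agent.H76.LP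

open Pool.Agent.H76.CR Pool.Agent.H76.RP Pool.Agent.H76.GS Pool.Agent.H76.GL Pool.Agent.H76.LF
  Pool.Agent.H52.ZR

/-- a sum of `zc (r / 2)` over separated points is at most the number of zeros in the window -/
private theorem lw_box {r A B : ℝ} (hr : 0 < r) (hr1 : r ≤ 1) (S : Finset ℂ) (f : ℂ → ℝ)
    (hS : ∀ ρ ∈ S, ∀ ρ' ∈ S, ρ ≠ ρ' → r ≤ |f ρ - f ρ'|) (hAB : ∀ ρ ∈ S, A ≤ f ρ ∧ f ρ ≤ B) :
    ∑ ρ ∈ S, (zc (r / 2) (f ρ) : ℝ) ≤ (zwin r (A - 1) (B + 1) : ℝ) := by
  classical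
  have hinj : Set.InjOn f S := by
    intro ρ hρ ρ' hρ' h
    by_contra hne
    have h1 := hS ρ hρ ρ' hρ' hne
    rw [h, sub_self, abs_zero] at h1
    linarith
  have h1 := box_sum (A := A) (B := B) hr hr1 (S.image f) (by
    intro s hs t ht hst
    obtain ⟨a, ha, rfl⟩ := Finset.mem_image.1 hs
    obtain ⟨b, hb, rfl⟩ := Finset.mem_image.1 ht
    exact hS a ha b hb fun h => hst (by rw [h])) (by
    intro t ht
    obtain ⟨a, ha, rfl⟩ := Finset.mem_image.1 ht
    exact hAB a ha)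
  rw [Finset.sum_image hinj] at h1
  exact_mod_cast h1

open Classical in
/-- the coefficients of a pair -/
private noncomputable def kk (ρ ρ' : ℂ) : ℂ → ℤ := fun u => if u = ρ then 1 else if u = ρ' then -1 else 0

private theorem kk_facts {ρ ρ' : ℂ} (hne : ρ ≠ ρ') (r : ℝ) :
    comb {ρ, ρ'} (kk ρ ρ') = ρ.im - ρ'.im ∧ len {ρ, ρ'} (kk ρ ρ') = 2 ∧
    dep {ρ, ρ'} (kk ρ ρ') = 2 * ((1 - ρ.re) + (1 - ρ'.re)) ∧
    num r {ρ, ρ'} (kk ρ ρ') = 2 * ((zc r ρ.im : ℝ) + zc r ρ'.im) ∧
    sg {ρ, ρ'} (kk ρ ρ') = 1 := by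
  classical
  have h1 : kk ρ ρ' ρ = 1 := by simp [kk]
  have h2 : kk ρ ρ' ρ' = -1 := by simp [kk, hne.symm]
  have hlen : len {ρ, ρ'} (kk ρ ρ') = 2 := by
    unfold len
    rw [Finset.sum_pair hne, h1, h2]
    norm_num
  refine ⟨?_, hlen, ?_, ?_, ?_⟩
  · unfold comb
    rw [Finset.sum_pair hne, h1, h2]
    push_cast
    ring
  · unfold dep
    rw [hlen, Finset.sum_pair hne, h1, h2]
    norm_num
  · unfold num
    rw [hlen, Finset.sum_pair hne, h1, h2]
    norm_num
  · unfold sg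
    rw [Finset.sum_pair hne, h1, h2]
    norm_num

theorem lawP : ∃ c C : ℝ, 0 < c ∧ c ≤ 1 ∧ 1 ≤ C ∧ ∀ (r x T H : ℝ) (S : Finset ℂ), 1 ≤ T → 0 ≤ H →
    0 < x → x < r → r ≤ 1 / 4 →
    (∀ ρ ∈ S, riemannZeta ρ = 0 ∧ 1 - x ≤ ρ.re ∧ T ≤ ρ.im ∧ ρ.im ≤ T + H) →
    (∀ ρ ∈ S, ∀ ρ' ∈ S, ρ ≠ ρ' → r ≤ |ρ.im - ρ'.im|) →
    ∃ S1 : Finset ℂ, S1 ⊆ S ∧
      (S.card : ℝ) ≤ S1.card + C * (x * psi r (T + H) / r) * zwin r (T - 1) (T + H + 1) ∧
      ∀ ρ ∈ S1, ∀ ρ' ∈ S1, ρ ≠ ρ' →
        c < x * vklam |ρ.im - ρ'.im| ∧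
        ∀ r' E' : ℝ, 0 < r' → r' ≤ 1 → 1 + Real.log (1 / r') ≤ E' → Tame r' E' (ρ.im - ρ'.im) →
          x * Real.log (2 + E') ≤ c * r' →
          c * r' / (x * Real.log (2 + E')) ≤ zc r' (ρ.im - ρ'.im) := by
  classical
  obtain ⟨CR, hCR, hric⟩ := ricU
  obtain ⟨cv, Cv, hcv, hCv, hvir⟩ := vir
  obtain ⟨cp, hcp, hcp1, hpri⟩ := priE
  obtain ⟨co, hco, hco1, hown⟩ := own
  -- the constants
  obtain ⟨c', hc'0, hc'1, hc'v, hc'p, hc'C⟩ : ∃ c' : ℝ, 0 < c' ∧ c' ≤ 1 ∧ 128 * CR * c' ≤ cv ∧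
      128 * CR * c' ≤ cp ∧ 16 * Cv * c' ≤ 1 := by
    refine ⟨min (min 1 (cv / (128 * CR))) (min (cp / (128 * CR)) (1 / (16 * Cv))), ?_, ?_, ?_, ?_, ?_⟩
    · have h1 : 0 < cv / (128 * CR) := by positivity
      have h2 : 0 < cp / (128 * CR) := by positivity
      have h3 : 0 < 1 / (16 * Cv) := by positivity
      exact lt_min (lt_min one_pos h1) (lt_min h2 h3)
    · exact (min_le_left _ _).trans (min_le_left _ _)
    · have h1 : min (min 1 (cv / (128 * CR))) (min (cp / (128 * CR)) (1 / (16 * Cv))) ≤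
          cv / (128 * CR) := (min_le_left _ _).trans (min_le_right _ _)
      have h2 := mul_le_mul_of_nonneg_left h1 (by positivity : 0 ≤ 128 * CR)
      rwa [mul_div_cancel₀ _ (by positivity : 128 * CR ≠ 0)] at h2
    · have h1 : min (min 1 (cv / (128 * CR))) (min (cp / (128 * CR)) (1 / (16 * Cv))) ≤
          cp / (128 * CR) := (min_le_right _ _).trans (min_le_left _ _)
      have h2 := mul_le_mul_of_nonneg_left h1 (by positivity : 0 ≤ 128 * CR)
      rwa [mul_div_cancel₀ _ (by positivity : 128 * CR ≠ 0)] at h2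
    · have h1 : min (min 1 (cv / (128 * CR))) (min (cp / (128 * CR)) (1 / (16 * Cv))) ≤
          1 / (16 * Cv) := (min_le_right _ _).trans (min_le_right _ _)
      have h2 := mul_le_mul_of_nonneg_left h1 (by positivity : 0 ≤ 16 * Cv)
      rwa [mul_div_cancel₀ _ (by positivity : 16 * Cv ≠ 0)] at h2
  obtain ⟨c, hc0, hcv4, hco4⟩ : ∃ c : ℝ, 0 < c ∧ 4 * c ≤ cv ∧ 4 * c ≤ co := by
    refine ⟨min (cv / 4) (co / 4), lt_min (by positivity) (by positivity), ?_, ?_⟩
    · have := min_le_left (cv / 4) (co / 4)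
      linarith
    · have := min_le_right (cv / 4) (co / 4)
      linarith
  refine ⟨c, 1 / c', hc0, by linarith, by rw [le_div_iff₀ hc'0]; linarith, ?_⟩
  intro r x T H S hT hH hx hxr hr4 hS hsep
  have hr : 0 < r := by linarith
  have hTH : 0 ≤ T + H := by linarith
  obtain ⟨hL1, hL2⟩ := psi_half hr (by linarith : r ≤ 1) hTH
  set L : ℝ := psi r (T + H) with hL
  have hL0 : 0 < L := by linarith
  set N0 : ℝ := (zwin r (T - 1) (T + H + 1) : ℝ) with hN0
  have hN00 : 0 ≤ N0 := Nat.cast_nonneg _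
  have hxL : 0 < x * L := mul_pos hx hL0
  rcases lt_or_ge (c' * r) (x * L) with hbig | hsmall
  · -- the trivial case
    refine ⟨∅, Finset.empty_subset _, ?_, fun ρ hρ => absurd hρ (Finset.notMem_empty _)⟩
    have h1 : (S.card : ℝ) ≤ N0 := by
      have := card_le_win (A := T - 1) (B := T + H + 1) (by linarith : r ≤ 1) S (by
        intro ρ hρ
        obtain ⟨a, b, e, f⟩ := hS ρ hρ
        exact ⟨a, by linarith, by linarith, by linarith⟩)
      rw [hN0]
      exact_mod_cast this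
    have h2 : 1 ≤ 1 / c' * (x * L / r) := by
      rw [div_mul_div_comm, one_mul, le_div_iff₀ (by positivity)]
      linarith
    have h3 : N0 ≤ 1 / c' * (x * L / r) * N0 := by nlinarith
    rw [Finset.card_empty, Nat.cast_zero, zero_add]
    linarith
  · -- tameness
    set E : ℝ := Real.exp (2 * CR * L) - 2 with hE
    have hlogE : Real.log (2 + E) = 2 * CR * L := by
      rw [hE, show 2 + (Real.exp (2 * CR * L) - 2) = Real.exp (2 * CR * L) by ring, Real.log_exp]
    have hlr0 : 0 ≤ Real.log (1 / (r / 2)) := by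
      apply Real.log_nonneg
      rw [le_div_iff₀ (by linarith)]
      linarith
    have htame : ∀ t : ℝ, r ≤ |t| → |t| ≤ T + H → 1 + Real.log (1 / (r / 2)) ≤ E ∧
        Tame (r / 2) E t := by
      intro t h1 h2
      obtain ⟨E', hE1, hE2, hE3⟩ := hric (r / 2) (T + H) t (by linarith) (by linarith) hTH
        (by linarith) h2
      have h7 : E' ≤ E := by
        have h8 : Real.log (2 + E') ≤ 2 * CR * L := by
          refine hE2.trans ?_
          calc CR * psi (r / 2) (T + H) ≤ CR * (2 * L) :=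
                mul_le_mul_of_nonneg_left hL2 (by linarith)
            _ = 2 * CR * L := by ring
        rw [Real.log_le_iff_le_exp (by linarith)] at h8
        rw [hE]
        linarith
      exact ⟨hE1.trans h7, hE3.mono h7⟩
    have hEr : 1 + Real.log (1 / (r / 2)) ≤ E := by
      refine (htame (T + H) ?_ ?_).1
      · rw [abs_of_nonneg hTH]
        linarith
      · rw [abs_of_nonneg hTH]
    have hE0 : 1 ≤ E := by linarith
    set S1 : Finset ℂ := S.filter fun ρ => (zc (r / 2) ρ.im : ℝ) * (x * L) ≤ c' * r with hS1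
    set S2 : Finset ℂ := S.filter fun ρ => ¬ (zc (r / 2) ρ.im : ℝ) * (x * L) ≤ c' * r with hS2
    have hcard : (S.card : ℝ) = S1.card + S2.card := by
      have := Finset.card_filter_add_card_filter_not (s := S)
        (fun ρ => (zc (r / 2) ρ.im : ℝ) * (x * L) ≤ c' * r)
      rw [← this]
      push_cast
      rfl
    have hS2m : ∀ ρ ∈ S2, ρ ∈ S := fun ρ hρ => (Finset.mem_filter.1 hρ).1
    refine ⟨S1, Finset.filter_subset _ _, ?_, ?_⟩
    · -- the crowded zeros
      have h1 := lw_box (A := T) (B := T + H) hr (by linarith) S2 (fun ρ => ρ.im)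
        (fun ρ hρ ρ' hρ' h => hsep ρ (hS2m ρ hρ) ρ' (hS2m ρ' hρ') h)
        (fun ρ hρ => ⟨(hS ρ (hS2m ρ hρ)).2.2.1, (hS ρ (hS2m ρ hρ)).2.2.2⟩)
      have h2 : (S2.card : ℝ) * (c' * r) ≤ x * L * N0 := by
        calc (S2.card : ℝ) * (c' * r) = ∑ ρ ∈ S2, c' * r := by
              rw [Finset.sum_const, nsmul_eq_mul]
          _ ≤ ∑ ρ ∈ S2, x * L * (zc (r / 2) ρ.im : ℝ) := by
              refine Finset.sum_le_sum fun ρ hρ => ?_
              have := (Finset.mem_filter.1 hρ).2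
              linarith
          _ = x * L * ∑ ρ ∈ S2, (zc (r / 2) ρ.im : ℝ) := by rw [Finset.mul_sum]
          _ ≤ _ := mul_le_mul_of_nonneg_left h1 hxL.le
      have h3 : (S2.card : ℝ) ≤ 1 / c' * (x * L / r) * N0 := by
        have h4 : 1 / c' * (x * L / r) * N0 = x * L * N0 / (c' * r) := by
          field_simp
        rw [h4, le_div_iff₀ (by positivity)]
        exact h2
      rw [hcard]
      linarith
    · -- pairs of uncrowded zeros
      intro ρ hρ ρ' hρ' hne
      obtain ⟨hρS, hρn⟩ := Finset.mem_filter.1 hρ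
      obtain ⟨hρS', hρn'⟩ := Finset.mem_filter.1 hρ'
      obtain ⟨hz, hre, him1, him2⟩ := hS ρ hρS
      obtain ⟨hz', hre', him1', him2'⟩ := hS ρ' hρS'
      obtain ⟨hcomb, hlen, hdep, hnum, hsg⟩ := kk_facts hne (r / 2)
      have hrt : r ≤ |ρ.im - ρ'.im| := hsep ρ hρS ρ' hρS' hne
      have hlt := re_lt_one hz
      have hlt' := re_lt_one hz'
      obtain ⟨D, hD⟩ : ∃ D : ℝ, D = dep {ρ, ρ'} (kk ρ ρ') := ⟨_, rfl⟩
      obtain ⟨Λ, hΛ⟩ : ∃ Λ : ℝ, Λ = LL E {ρ, ρ'} (kk ρ ρ') := ⟨_, rfl⟩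
      obtain ⟨ν, hν⟩ : ∃ ν : ℝ, ν = (zc (r / 2) ρ.im : ℝ) := ⟨_, rfl⟩
      obtain ⟨ν', hν'⟩ : ∃ ν' : ℝ, ν' = (zc (r / 2) ρ'.im : ℝ) := ⟨_, rfl⟩
      have hν0 : 0 ≤ ν := by rw [hν]; exact Nat.cast_nonneg _
      have hν0' : 0 ≤ ν' := by rw [hν']; exact Nat.cast_nonneg _
      rw [← hν] at hρn hnum
      rw [← hν'] at hρn' hnum
      have hD0 : 0 < D := by rw [hD, hdep]; linarith
      have hD4 : D ≤ 4 * x := by rw [hD, hdep]; linarith
      have hLL : Λ ≤ 4 * CR * L := by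
        rw [hΛ]
        unfold LL
        rw [hlen, Real.log_mul (by linarith) (by norm_num), hlogE]
        have h1 := Real.log_two_lt_d9
        have h2 : 1 ≤ 2 * CR * L := by nlinarith
        linarith
      have hLL0 : 0 ≤ Λ := by
        rw [hΛ]
        unfold LL
        rw [hlen]
        apply Real.log_nonneg
        linarith
      have hCRL : 0 ≤ 4 * CR * L := by positivity
      -- the two smallness conditions
      have hk1 : D * Λ ≤ 16 * CR * (c' * r) := by
        calc D * Λ ≤ 4 * x * (4 * CR * L) :=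
              mul_le_mul hD4 hLL hLL0 (by positivity)
          _ = 16 * CR * (x * L) := by ring
          _ ≤ 16 * CR * (c' * r) := mul_le_mul_of_nonneg_left hsmall (by positivity)
      have hk2 : D * (2 * (ν + ν')) * Λ ≤ 64 * CR * (c' * r) := by
        calc D * (2 * (ν + ν')) * Λ
            ≤ 4 * x * (2 * (ν + ν')) * (4 * CR * L) := by
              refine mul_le_mul (mul_le_mul_of_nonneg_right hD4 (by positivity)) hLL hLL0
                (by positivity)
          _ = 32 * CR * (ν * (x * L) + ν' * (x * L)) := by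
              ring
          _ ≤ 32 * CR * (c' * r + c' * r) :=
              mul_le_mul_of_nonneg_left (add_le_add hρn hρn') (by positivity)
          _ = 64 * CR * (c' * r) := by ring
      have hmem : ∀ u ∈ ({ρ, ρ'} : Finset ℂ), riemannZeta u = 0 ∧ 1 ≤ |u.im| ∧
          Tame (r / 2) E u.im := by
        intro u hu
        rw [Finset.mem_insert, Finset.mem_singleton] at hu
        rcases hu with rfl | rfl
        · have h1 : |u.im| = u.im := abs_of_nonneg (by linarith)
          exact ⟨hz, by rw [h1]; linarith, (htame u.im (by rw [h1]; linarith)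
            (by rw [h1]; linarith)).2⟩
        · have h1 : |u.im| = u.im := abs_of_nonneg (by linarith)
          exact ⟨hz', by rw [h1]; linarith, (htame u.im (by rw [h1]; linarith)
            (by rw [h1]; linarith)).2⟩
      have hcr : 0 < c' * r := by positivity
      have hCRc : 0 ≤ CR * (c' * r) := by positivity
      have hvv : 64 * CR * (c' * r) ≤ cv * (r / 2) := by
        have h1 : 128 * CR * c' * (r / 2) ≤ cv * (r / 2) :=
          mul_le_mul_of_nonneg_right hc'v (by linarith)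
        linarith
      have hpp : 64 * CR * (c' * r) ≤ cp * (r / 2) := by
        have h1 : 128 * CR * c' * (r / 2) ≤ cp * (r / 2) :=
          mul_le_mul_of_nonneg_right hc'p (by linarith)
        linarith
      have hk1' : D * Λ ≤ 64 * CR * (c' * r) := by linarith
      have hv1 : dep {ρ, ρ'} (kk ρ ρ') * LL E {ρ, ρ'} (kk ρ ρ') ≤ cv * (r / 2) := by
        rw [← hD, ← hΛ]; exact hk1'.trans hvv
      have hv2 : dep {ρ, ρ'} (kk ρ ρ') * num (r / 2) {ρ, ρ'} (kk ρ ρ') *
          LL E {ρ, ρ'} (kk ρ ρ') ≤ cv * (r / 2) := by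
        rw [← hD, ← hΛ, hnum]; exact hk2.trans hvv
      have hp1 : dep {ρ, ρ'} (kk ρ ρ') * LL E {ρ, ρ'} (kk ρ ρ') ≤ cp * (r / 2) := by
        rw [← hD, ← hΛ]; exact hk1'.trans hpp
      have hp2 : dep {ρ, ρ'} (kk ρ ρ') * num (r / 2) {ρ, ρ'} (kk ρ ρ') *
          LL E {ρ, ρ'} (kk ρ ρ') ≤ cp * (r / 2) := by
        rw [← hD, ← hΛ, hnum]; exact hk2.trans hpp
      constructor
      · by_contra hcon
        rw [not_lt] at hcon
        have hvk : 0 ≤ vklam |ρ.im - ρ'.im| := by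
          unfold vklam
          have h1 : 1 ≤ Real.log (|ρ.im - ρ'.im| + 3) := by
            rw [Real.le_log_iff_exp_le (by positivity)]
            have := Real.exp_one_lt_d9
            have := abs_nonneg (ρ.im - ρ'.im)
            linarith
          have h2 := Real.log_nonneg h1
          positivity
        have h1 : dep {ρ, ρ'} (kk ρ ρ') * vklam |comb {ρ, ρ'} (kk ρ ρ')| ≤ cv := by
          rw [hcomb, ← hD]
          calc D * vklam |ρ.im - ρ'.im| ≤ 4 * x * vklam |ρ.im - ρ'.im| :=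
                mul_le_mul_of_nonneg_right hD4 hvk
            _ = 4 * (x * vklam |ρ.im - ρ'.im|) := by ring
            _ ≤ cv := by linarith
        have h2 := (hvir (r / 2) E {ρ, ρ'} (kk ρ ρ') (by linarith) (by linarith) hEr hmem hv1
          (Or.inr (Or.inl hv2)) h1).2
        rw [hcomb, ← hD] at h2
        have h3 : Cv * D ≤ Cv * (4 * x) := mul_le_mul_of_nonneg_left hD4 (by linarith)
        have h4 : x ≤ 2 * (c' * r) := by nlinarith
        have h5 : Cv * (4 * x) ≤ Cv * (4 * (2 * (c' * r))) :=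
          mul_le_mul_of_nonneg_left (by linarith) (by linarith)
        have h6 : Cv * (4 * (2 * (c' * r))) = 16 * Cv * c' * r / 2 := by ring
        have h7 : 16 * Cv * c' * r ≤ 1 * r := mul_le_mul_of_nonneg_right hc'C hr.le
        linarith
      · intro r' E' hr'0 hr'1 hE' htm hxE
        have h1 := (hpri (r / 2) E {ρ, ρ'} (kk ρ ρ') (by linarith) (by linarith) hEr hmem
          (by rw [← hD]; exact hD0) hp1 (Or.inr (Or.inl hp2))).2
        rw [hsg, one_mul, hcomb, ← hD] at h1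
        have hlr' : 0 ≤ Real.log (1 / r') := Real.log_nonneg (by rw [le_div_iff₀ hr'0]; linarith)
        have hlE : 0 < Real.log (2 + E') := Real.log_pos (by linarith)
        have h2 : D * Real.log (2 + E') ≤ co * r' := by
          calc D * Real.log (2 + E') ≤ 4 * x * Real.log (2 + E') :=
                mul_le_mul_of_nonneg_right hD4 hlE.le
            _ = 4 * (x * Real.log (2 + E')) := by ring
            _ ≤ 4 * (c * r') := by linarith
            _ ≤ co * r' := by nlinarith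
        have h3 := (hown r' E' D (ρ.im - ρ'.im) hr'0 hr'1 hE' htm hD0 h2).1 h1
        refine le_trans ?_ h3
        rw [div_le_div_iff₀ (by positivity) (by positivity)]
        have h4 : c * D ≤ co * x := by
          calc c * D ≤ c * (4 * x) := mul_le_mul_of_nonneg_left hD4 hc0.le
            _ = 4 * c * x := by ring
            _ ≤ co * x := mul_le_mul_of_nonneg_right hco4 hx.le
        have h5 := mul_le_mul_of_nonneg_right h4 (by positivity : 0 ≤ r' * Real.log (2 + E'))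
        nlinarith

end Pool.Agent.H76.LP
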