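import Mathlib
import Pool.Agent.H76.LP.Full
import Pool.Agent.H76.LP.LPage
import Pool.Agent.H76.GL.Main2

/-!
# Zeros of the zeta function near the line `Re s = 1`: repulsion and lattice structure

`zc r t` (`Pool/Agent/H76/RP/Defs.lean`); `Tame r E t` (`Pool/Agent/H76/GL/Defs.lean`); `comb`, `len`, `dep`
(`Pool/Agent/H76/GS/Defs.lean`); `num` (`Pool/Agent/H76/GS/DefsU.lean`); `LL` (`Pool/Agent/H76/GL/Main.lean`);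
`psi` (`Pool/Agent/H76/LP/Psi.lean`); `vklam` (`Pool/Agent/H52/ZR/Low.lean`).
-/

set_option autoImplicit false

open Complex

namespace Pool.Agent.H76.LP

open Pool.Agent.H76.RP Pool.Agent.H76.GL Pool.Agent.H52.ZR Pool.Agent.H76.GS

theorem resultLat :
    (∃ c C : ℝ, 0 < c ∧ 1 ≤ C ∧ ∀ (T d r : ℝ) (ρ ρ' : ℂ), 1 ≤ T → 0 < d → r ≤ 1 / 4 →
      riemannZeta ρ = 0 → riemannZeta ρ' = 0 → 1 - d ≤ ρ.re → 1 - d ≤ ρ'.re →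
      1 ≤ |ρ.im| → |ρ.im| ≤ T → 1 ≤ |ρ'.im| → |ρ'.im| ≤ T → 0 < r →
      (C * d * psi r T * (1 + zc r ρ.im + zc r ρ'.im) ≤ r →
        |ρ.im - ρ'.im| ≤ C * d ∨ c ≤ d * vklam |ρ.im - ρ'.im|) ∧
      (C * d * psi r T ≤ r → zc r ρ.im ≤ 1 → zc r ρ'.im ≤ 1 → ρ ≠ ρ' →
        c ≤ d * vklam |ρ.im - ρ'.im|)) ∧
    (∃ c C : ℝ, 0 < c ∧ 1 ≤ C ∧ ∀ (r E : ℝ) (S : Finset ℂ) (k : ℂ → ℤ), 0 < r → r ≤ 1 →
      1 + Real.log (1 / r) ≤ E →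
      (∀ ρ ∈ S, riemannZeta ρ = 0 ∧ 1 ≤ |ρ.im| ∧ Tame r E ρ.im) →
      dep S k * LL E S k ≤ c * r →
      ((∀ ρ ∈ S, zc r ρ.im ≤ 1) ∨ dep S k * num r S k * LL E S k ≤ c * r ∨
        dep S k * (len S k ^ 2 * E) * LL E S k ≤ c * r) →
      (∀ x R E' : ℝ, 0 < x → x ≤ R → R ≤ 1 → 1 + Real.log (1 / x) ≤ E' → Tame R E' (comb S k) →
        dep S k * Real.log (2 + E') ≤ c * x →
        (Odd (∑ ρ ∈ S, k ρ) → 1 ≤ zc x (comb S k) ∧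
          (C * (x * Real.log (2 + E') / R) * zc R (comb S k) < 1 → zc x (comb S k) = 1)) ∧
        (Even (∑ ρ ∈ S, k ρ) → c * x / (dep S k * Real.log (2 + E')) ≤ zc x (comb S k) ∧
          c * x / (dep S k * Real.log (2 + E')) ≤ E')) ∧
      (dep S k * vklam |comb S k| ≤ c → Even (∑ ρ ∈ S, k ρ) ∧ |comb S k| ≤ C * dep S k)) ∧
    (∃ c : ℝ, 0 < c ∧ ∀ (r E : ℝ) (S : Finset ℂ) (k : ℂ → ℤ) (ρ₀ : ℂ), 0 < r →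
      r ≤ 1 → 1 + Real.log (1 / r) ≤ E →
      (∀ ρ ∈ S, riemannZeta ρ = 0 ∧ 1 ≤ |ρ.im| ∧ Tame r E ρ.im ∧ zc r ρ.im ≤ 1) →
      riemannZeta ρ₀ = 0 → 1 ≤ |ρ₀.im| → Tame r E ρ₀.im → zc r ρ₀.im ≤ 1 →
      r ≤ |ρ₀.im + comb S k| →
      ((Tame r E (ρ₀.im + comb S k) ∧ zc r (ρ₀.im + comb S k) = 0) ∨
        r * vklam |ρ₀.im + comb S k| ≤ c) → 0 < dep S k →
      c * r * min 1 (Real.log (c * r / (dep S k * LL E S k)) / LL E S k) ≤ 1 - ρ₀.re) ∧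
    (∃ C : ℝ, 1 ≤ C ∧ ∀ r T t : ℝ, 0 < r → r ≤ 1 / 4 → 0 ≤ T → 2 * r ≤ |t| → |t| ≤ T →
      ∃ E : ℝ, 1 + Real.log (1 / r) ≤ E ∧ Real.log (2 + E) ≤ C * psi r T ∧ Tame r E t) :=
  ⟨lpage, full, localDH, ricU⟩

end Pool.Agent.H76.LP
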